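import Pool.Agent.Zk86.CycZ.Eig

/-! Comparison of volumes with a critical configuration. -/

namespace Pool.Agent.Zk86.CycZ

open Finset Pool.Agent.K3h40.Cyc
open scoped Matrix

variable {d : ℕ}

/-- weighted Gram matrix of the augmented matrix -/
noncomputable def gramL (lam : ZMod (d + 3) → ℝ) (q : Fin (d + 3) → EE d) :
    Matrix (Fin (d + 1)) (Fin (d + 1)) ℝ :=
  Matrix.of fun a b => ∑ i : ZMod (d + 3), lam i * (aug q i a * aug q i b)

/-- the matrix `[M | H/lam]` -/
noncomputable def NM (lam : ZMod (d + 3) → ℝ) (q : Fin (d + 3) → EE d) (k : Fin (d + 3) → ℂ)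
    (ε : Fin (d + 1) ⊕ Fin 2 ≃ Fin (d + 3)) :
    Matrix (Fin (d + 1) ⊕ Fin 2) (Fin (d + 1) ⊕ Fin 2) ℝ :=
  Matrix.of fun r c => Sum.elim (fun j => aug q (ε r) j)
    (fun t => (if t = 0 then (k (ε r)).re else (k (ε r)).im) / lam (ε r)) c

/-- the two by two block -/
noncomputable def blk (lam : ZMod (d + 3) → ℝ) (k : Fin (d + 3) → ℂ) : Matrix (Fin 2) (Fin 2) ℝ :=
  Matrix.of fun s t => if s = 0 then (if t = 0 then wA lam k else wB lam k)
    else (if t = 0 then wB lam k else wC lam k)

lemma blk_det (lam : ZMod (d + 3) → ℝ) (k : Fin (d + 3) → ℂ) :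
    (blk lam k).det = wA lam k * wC lam k - wB lam k ^ 2 := by
  rw [Matrix.det_fin_two]
  simp only [blk, Matrix.of_apply, if_true, Fin.isValue, one_ne_zero, if_false]
  ring

lemma blk_sum (lam : ZMod (d + 3) → ℝ) (k : Fin (d + 3) → ℂ) (s t : Fin 2) :
    ∑ i : Fin (d + 3), (if s = 0 then (k i).re else (k i).im) * ((if t = 0 then (k i).re else (k i).im) / lam i)
      = blk lam k s t := by
  unfold blk wA wB wC
  rw [Matrix.of_apply]
  by_cases hs : s = 0 <;> by_cases ht : t = 0 <;> simp only [hs, ht, if_true, if_false]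
  · exact Finset.sum_congr rfl fun i _ => by ring
  · exact Finset.sum_congr rfl fun i _ => by ring
  · exact Finset.sum_congr rfl fun i _ => by ring
  · exact Finset.sum_congr rfl fun i _ => by ring

variable {q : Fin (d + 3) → EE d} {k : Fin (d + 3) → ℂ}

lemma ortho (hk : Gale q k) (s : Fin 2) (j : Fin (d + 1)) :
    ∑ i, (if s = 0 then (k i).re else (k i).im) * aug q i j = 0 := by
  by_cases hs : s = 0
  · simp only [hs, if_true]
    exact (Finset.sum_congr rfl fun i _ => mul_comm _ _).trans (hk.re j)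
  · simp only [hs, if_false]
    exact (Finset.sum_congr rfl fun i _ => mul_comm _ _).trans (hk.im j)

lemma NM_one {lam : ZMod (d + 3) → ℝ} (hl : ∀ i, 0 < lam i) (hk : Gale q k)
    (ε : Fin (d + 1) ⊕ Fin 2 ≃ Fin (d + 3)) :
    (Matrix.diagonal (fun r => lam (ε r)) * NM lam q k ε)ᵀ * NM lam q k ε =
      Matrix.fromBlocks (gramL lam q) 0 0 (blk lam k) := by
  have hs : ∀ F : Fin (d + 3) → ℝ, ∑ r, F (ε r) = ∑ i, F i := fun F => Equiv.sum_comp ε F
  ext c c'
  rw [Matrix.mul_apply]
  simp only [Matrix.transpose_apply, Matrix.diagonal_mul]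
  rcases c with j | s
  · rcases c' with j' | t
    · rw [Matrix.fromBlocks_apply₁₁]
      simp only [NM, Matrix.of_apply, Sum.elim_inl]
      rw [hs (fun i => lam i * aug q i j * aug q i j')]
      unfold gramL
      rw [Matrix.of_apply]
      exact Finset.sum_congr rfl fun i _ => by ring
    · rw [Matrix.fromBlocks_apply₁₂, Matrix.zero_apply]
      simp only [NM, Matrix.of_apply, Sum.elim_inl, Sum.elim_inr]
      rw [hs (fun i => lam i * aug q i j * ((if t = 0 then (k i).re else (k i).im) / lam i)),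
        ← ortho hk t j]
      refine Finset.sum_congr rfl fun i _ => ?_
      have := (hl i).ne'
      field_simp
  · rcases c' with j' | t
    · rw [Matrix.fromBlocks_apply₂₁, Matrix.zero_apply]
      simp only [NM, Matrix.of_apply, Sum.elim_inl, Sum.elim_inr]
      rw [hs (fun i => lam i * ((if s = 0 then (k i).re else (k i).im) / lam i) * aug q i j'),
        ← ortho hk s j']
      refine Finset.sum_congr rfl fun i _ => ?_
      have := (hl i).ne'
      field_simp
    · rw [Matrix.fromBlocks_apply₂₂]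
      simp only [NM, Matrix.of_apply, Sum.elim_inr]
      rw [hs (fun i => lam i * ((if s = 0 then (k i).re else (k i).im) / lam i) *
        ((if t = 0 then (k i).re else (k i).im) / lam i)), ← blk_sum]
      refine Finset.sum_congr rfl fun i _ => ?_
      have := (hl i).ne'
      field_simp

lemma NM_two {lam : ZMod (d + 3) → ℝ} (hk : Gale q k) (ε : Fin (d + 1) ⊕ Fin 2 ≃ Fin (d + 3)) :
    ∃ C, (NM lam q k ε)ᵀ * BM q k ε =
      Matrix.fromBlocks (gram q) 0 C (blk lam k) := by
  have hs : ∀ F : Fin (d + 3) → ℝ, ∑ r, F (ε r) = ∑ i, F i := fun F => Equiv.sum_comp ε F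
  refine ⟨Matrix.of fun s j => ((NM lam q k ε)ᵀ * BM q k ε) (Sum.inr s) (Sum.inl j), ?_⟩
  ext c c'
  rcases c with j | s
  · rcases c' with j' | t
    · rw [Matrix.fromBlocks_apply₁₁, Matrix.mul_apply]
      simp only [NM, BM, Matrix.of_apply, Matrix.transpose_apply, Sum.elim_inl]
      rw [hs (fun i => aug q i j * aug q i j'), gram, Matrix.mul_apply]
      rfl
    · rw [Matrix.fromBlocks_apply₁₂, Matrix.zero_apply, Matrix.mul_apply]
      simp only [NM, BM, Matrix.of_apply, Matrix.transpose_apply, Sum.elim_inl, Sum.elim_inr]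
      rw [hs (fun i => aug q i j * (if t = 0 then (k i).re else (k i).im)), ← ortho hk t j]
      exact Finset.sum_congr rfl fun i _ => mul_comm _ _
  · rcases c' with j' | t
    · rw [Matrix.fromBlocks_apply₂₁, Matrix.of_apply]
    · rw [Matrix.fromBlocks_apply₂₂, Matrix.mul_apply]
      simp only [NM, BM, Matrix.of_apply, Matrix.transpose_apply, Sum.elim_inr]
      rw [hs (fun i => (if s = 0 then (k i).re else (k i).im) / lam i *
        (if t = 0 then (k i).re else (k i).im)), ← blk_sum]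
      exact Finset.sum_congr rfl fun i _ => by ring

/-- determinant of the weighted Gram matrix -/
lemma gramL_det {lam : ZMod (d + 3) → ℝ} (hl : ∀ i, 0 < lam i) (hk : Gale q k)
    (hD : (gram q).det ≠ 0) (hE : wA lam k * wC lam k - wB lam k ^ 2 ≠ 0) :
    (gramL lam q).det = (∏ i, lam i) * ((gram q).det * (wA lam k * wC lam k - wB lam k ^ 2)) := by
  obtain ⟨ε, -, -⟩ := exists_enum (d := d) 0 1 (by simp)
  have h1 := congrArg Matrix.det (NM_one hl hk ε)
  obtain ⟨C, hC⟩ := NM_two (lam := lam) hk ε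
  have h2 := congrArg Matrix.det hC
  rw [Matrix.det_mul, Matrix.det_transpose, Matrix.det_mul, Matrix.det_diagonal,
    Matrix.det_fromBlocks_zero₂₁, blk_det] at h1
  rw [Matrix.det_mul, Matrix.det_transpose, Matrix.det_fromBlocks_zero₁₂, blk_det] at h2
  have h3 := BM_det_sq hk ε
  have h4 : ∏ r, lam (ε r) = ∏ i, lam i := Equiv.prod_comp ε (fun i : Fin (d + 3) => lam i)
  rw [h4] at h1
  set E := wA lam k * wC lam k - wB lam k ^ 2 with hEdef
  set D := (gram q).det with hDdef
  set n := (NM lam q k ε).det with hn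
  set β := (BM q k ε).det with hβ
  have h5 : n ^ 2 = D * E ^ 2 := by
    have h6 : n ^ 2 * D = D * E ^ 2 * D := by
      calc n ^ 2 * D = (n * β) ^ 2 := by rw [mul_pow, h3]
        _ = D * E ^ 2 * D := by rw [h2]; ring
    exact mul_right_cancel₀ hD h6
  have h7 : (∏ i, lam i) * n * n = (∏ i, lam i) * (D * E) * E := by
    calc (∏ i, lam i) * n * n = (∏ i, lam i) * n ^ 2 := by ring
      _ = _ := by rw [h5]; ring
  rw [h7] at h1
  exact (mul_right_cancel₀ hE h1).symm

/-- target diagonal -/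
noncomputable def tg (d : ℕ) (σ : ℝ) : Fin (d + 1) → ℝ := Fin.cons σ (fun _ => σ / d)

lemma tg_pos (hd0 : 0 < d) {σ : ℝ} (hσ : 0 < σ) (j : Fin (d + 1)) : 0 < tg d σ j := by
  have : (0 : ℝ) < d := by exact_mod_cast hd0
  refine Fin.cases ?_ (fun j => ?_) j
  · simp only [tg, Fin.cons_zero]; exact hσ
  · simp only [tg, Fin.cons_succ]; positivity

/-- upper bound of the determinant for unit vectors -/
lemma gramL_le (hd0 : 0 < d) {lam : ZMod (d + 3) → ℝ} (hl : ∀ i, 0 < lam i) (hn : ∀ i, ‖q i‖ = 1) :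
    (gramL lam q).det ≤ ∏ j, tg d (∑ i, lam i) j := by
  have hd' : (0 : ℝ) < d := by exact_mod_cast hd0
  set σ := ∑ i, lam i with hσdef
  have hσ : 0 < σ := Finset.sum_pos (fun k _ => hl k) Finset.univ_nonempty
  have ht := tg_pos hd0 hσ
  set Bq : Matrix (Fin (d + 3)) (Fin (d + 1)) ℝ :=
    Matrix.of fun i j => Real.sqrt (lam i) * aug q i j * (Real.sqrt (tg d σ j))⁻¹ with hBq
  have hK : (Bqᵀ * Bq).PosSemidef := by
    have := Matrix.posSemidef_conjTranspose_mul_self Bq
    rwa [Matrix.conjTranspose_eq_transpose_of_trivial] at this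
  have hKe : Bqᵀ * Bq = Matrix.diagonal (fun j => (Real.sqrt (tg d σ j))⁻¹) * gramL lam q *
      Matrix.diagonal (fun j => (Real.sqrt (tg d σ j))⁻¹) := by
    ext a b
    rw [Matrix.mul_diagonal, Matrix.diagonal_mul, Matrix.mul_apply]
    simp only [Matrix.transpose_apply, hBq, Matrix.of_apply, gramL]
    rw [Finset.mul_sum, Finset.sum_mul]
    refine Finset.sum_congr rfl fun i _ => ?_
    have := Real.mul_self_sqrt (hl i).le
    calc _ = (Real.sqrt (lam i) * Real.sqrt (lam i)) * (aug q i a * aug q i b) *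
          ((Real.sqrt (tg d σ a))⁻¹ * (Real.sqrt (tg d σ b))⁻¹) := by ring
      _ = _ := by rw [this]; ring
  have htr : (Bqᵀ * Bq).trace = (Fintype.card (Fin (d + 1)) : ℝ) := by
    rw [hKe]
    simp only [Matrix.trace, Matrix.diag, Matrix.mul_diagonal, Matrix.diagonal_mul]
    have h1 : ∀ j, (Real.sqrt (tg d σ j))⁻¹ * gramL lam q j j * (Real.sqrt (tg d σ j))⁻¹
        = gramL lam q j j / tg d σ j := by
      intro j
      have h2 : (Real.sqrt (tg d σ j))⁻¹ * (Real.sqrt (tg d σ j))⁻¹ = (tg d σ j)⁻¹ := by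
        rw [← mul_inv, Real.mul_self_sqrt (ht j).le]
      calc _ = gramL lam q j j * ((Real.sqrt (tg d σ j))⁻¹ * (Real.sqrt (tg d σ j))⁻¹) := by ring
        _ = _ := by rw [h2]; rfl
    simp_rw [h1]
    rw [Fin.sum_univ_succ]
    have h3 : gramL lam q 0 0 = σ := by
      simp only [gramL, Matrix.of_apply, aug_zero, mul_one]
      rfl
    have h4 : ∑ j : Fin d, gramL lam q j.succ j.succ = σ := by
      simp only [gramL, Matrix.of_apply, aug_succ]
      rw [Finset.sum_comm]
      refine Finset.sum_congr rfl fun (i : Fin (d + 3)) _ => ?_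
      rw [← Finset.mul_sum]
      have h5 := EuclideanSpace.norm_sq_eq (q i)
      rw [hn i] at h5
      have h6 : ∑ j : Fin d, q i j * q i j = ∑ j : Fin d, ‖q i j‖ ^ 2 := by
        refine Finset.sum_congr rfl fun j _ => ?_
        rw [Real.norm_eq_abs, sq_abs]; ring
      rw [h6, ← h5]; norm_num
    simp only [tg, Fin.cons_zero, Fin.cons_succ]
    rw [← Finset.sum_div, h3, h4]
    simp only [Fintype.card_fin]
    push_cast
    field_simp
    ring
  obtain ⟨h1, -⟩ := psd_det_le hK htr
  rw [hKe, Matrix.det_mul, Matrix.det_mul, Matrix.det_diagonal, Finset.prod_inv_distrib] at h1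
  have h : (∏ j, Real.sqrt (tg d σ j)) * (∏ j, Real.sqrt (tg d σ j)) = ∏ j, tg d σ j := by
    rw [← Finset.prod_mul_distrib]
    exact Finset.prod_congr rfl fun j _ => Real.mul_self_sqrt (ht j).le
  have hp : 0 < ∏ j, Real.sqrt (tg d σ j) := Finset.prod_pos fun j _ => Real.sqrt_pos.2 (ht j)
  have h2 : (∏ j, Real.sqrt (tg d σ j))⁻¹ * (gramL lam q).det * (∏ j, Real.sqrt (tg d σ j))⁻¹
      = (gramL lam q).det / ∏ j, tg d σ j := by
    rw [← h]; field_simp
  rw [h2, div_le_one (Finset.prod_pos fun j _ => ht j)] at h1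
  exact h1

variable {p : Fin (d + 3) → EE d} {g : ZMod (d + 3) → ℂ} {lam nu : ZMod (d + 3) → ℝ}

lemma gramL_crit (hd0 : 0 < d) (h : Crit p g lam nu) :
    (gramL lam p).det = ∏ j, tg d (∑ i, lam i) j := by
  have hd' : (0 : ℝ) < d := by exact_mod_cast hd0
  have hσ := sum_lam h
  have e : gramL lam p = Matrix.diagonal (tg d (∑ i, lam i)) := by
    ext a b
    refine Fin.cases ?_ (fun a => ?_) a <;> refine Fin.cases ?_ (fun b => ?_) b
    · rw [Matrix.diagonal_apply_eq]
      simp [gramL, tg]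
    · rw [Matrix.diagonal_apply_ne _ (Fin.succ_ne_zero b).symm]
      simp only [gramL, Matrix.of_apply, aug_zero, aug_succ, one_mul]
      exact E1 h b
    · rw [Matrix.diagonal_apply_ne _ (Fin.succ_ne_zero a)]
      simp only [gramL, Matrix.of_apply, aug_zero, aug_succ, mul_one]
      exact E1 h a
    · simp only [gramL, Matrix.of_apply, aug_succ]
      rw [E2 h a b]
      by_cases hab : a = b
      · subst hab
        rw [if_pos rfl, Matrix.diagonal_apply_eq]
        simp only [tg, Fin.cons_succ]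
        rw [hσ]
        field_simp
      · rw [if_neg hab, Matrix.diagonal_apply_ne _ (fun h' => hab (Fin.succ_injective _ h'))]
  rw [e, Matrix.det_diagonal]

/-- a critical configuration has the largest volume -/
theorem compare (hd : Even d) (hd0 : 0 < d) (h : Crit p g lam nu) (hk : Gale q k)
    (hDq : (gram q).det ≠ 0) (hpos : Pos k) (hn : ∀ i, ‖q i‖ = 1) :
    Real.sqrt (gram q).det * SS (d := d) k ≤ Real.sqrt (gram p).det * SS (d := d) g := by
  obtain ⟨Δ, hΔ, hle, heq⟩ := extremal hd hd0 h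
  have hl := lam_pos hd hd0 h
  have hs : 0 < SS (d := d) g := SS_pos hd hd0 h.pos
  have hs' : 0 < SS (d := d) k := SS_pos hd hd0 hpos
  have h1 := hle k hk.sum
  have hE' : 0 < wA lam k * wC lam k - wB lam k ^ 2 := by
    by_contra hcon
    have h2 := mul_nonpos_of_nonneg_of_nonpos hΔ.le (not_lt.1 hcon)
    have : 0 < SS (d := d) k ^ 2 := by positivity
    have h3 : SS (d := d) k ^ 2 ≤ Δ * (wA lam k * wC lam k - wB lam k ^ 2) := h1
    linarith
  have hE : 0 < wA lam g * wC lam g - wB lam g ^ 2 := by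
    by_contra hcon
    have h2 := mul_nonpos_of_nonneg_of_nonpos hΔ.le (not_lt.1 hcon)
    have : 0 < SS (d := d) g ^ 2 := by positivity
    linarith
  have e1 := gramL_det hl hk hDq hE'.ne'
  have e2 : (gramL lam p).det = (∏ i, lam i) * ((gram p).det * (wA lam g * wC lam g - wB lam g ^ 2)) :=
    gramL_det (k := g) hl h.gale h.hD hE.ne'
  have e3 := gramL_le hd0 hl hn
  have e4 := gramL_crit hd0 h
  have hprod : 0 < ∏ i : ZMod (d + 3), lam i := Finset.prod_pos fun i _ => hl i
  rw [e1, ← e4, e2] at e3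
  have e5 : (gram q).det * (wA lam k * wC lam k - wB lam k ^ 2)
      ≤ (gram p).det * (wA lam g * wC lam g - wB lam g ^ 2) := le_of_mul_le_mul_left e3 hprod
  obtain ⟨ε, -, -⟩ := exists_enum (d := d) 0 1 (by simp)
  have hDq0 : 0 < (gram q).det := lt_of_le_of_ne (gram_det_nonneg hk ε) (Ne.symm hDq)
  have hDp0 : 0 < (gram p).det := lt_of_le_of_ne (gram_det_nonneg (g := g) h.gale ε) (Ne.symm h.hD)
  have e6 : (Real.sqrt (gram q).det * SS (d := d) k) ^ 2 ≤ (Real.sqrt (gram p).det * SS (d := d) g) ^ 2 := by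
    rw [mul_pow, mul_pow, Real.sq_sqrt hDq0.le, Real.sq_sqrt hDp0.le, heq]
    calc (gram q).det * SS (d := d) k ^ 2
        ≤ (gram q).det * (Δ * (wA lam k * wC lam k - wB lam k ^ 2)) :=
          mul_le_mul_of_nonneg_left h1 hDq0.le
      _ = Δ * ((gram q).det * (wA lam k * wC lam k - wB lam k ^ 2)) := by ring
      _ ≤ Δ * ((gram p).det * (wA lam g * wC lam g - wB lam g ^ 2)) :=
          mul_le_mul_of_nonneg_left e5 hΔ.le
      _ = _ := by ring
  exact le_of_sq_le_sq e6 (by positivity)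

end Pool.Agent.Zk86.CycZ
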