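import Pool.Agent.K3h40.Cyc.Gale

/-! A weighted discrete Wirtinger inequality on a cycle with steps of length two. -/

namespace Pool.Agent.Zk86.CycZ

open Finset Pool.Agent.K3h40.Cyc

variable {d : ℕ}

/-- the quadratic form -/
noncomputable def QB (lam : ZMod (d + 3) → ℝ) (Δ : ℝ) (X Y : ZMod (d + 3) → ℝ) : ℝ :=
  ∑ k, (X (k + 1) - X (k - 1)) * (Y (k + 1) - Y (k - 1)) / lam k - 1 / Δ * ∑ k, lam k * (X k * Y k)

/-- a null vector of the form -/
def Nul (lam : ZMod (d + 3) → ℝ) (Δ : ℝ) (r : ZMod (d + 3) → ℝ) : Prop :=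
  ∀ k, (r k - r (k - 2)) / lam (k - 1) + (r k - r (k + 2)) / lam (k + 1) = lam k / Δ * r k

lemma shf (F : ZMod (d + 3) → ℝ) (c : ZMod (d + 3)) : ∑ k, F (k + c) = ∑ k, F k :=
  Equiv.sum_comp (Equiv.addRight c) F

lemma QB_comm (lam : ZMod (d + 3) → ℝ) (Δ : ℝ) (X Y : ZMod (d + 3) → ℝ) :
    QB lam Δ X Y = QB lam Δ Y X := by
  unfold QB
  congr 1
  · exact Finset.sum_congr rfl fun k _ => by ring
  · congr 1
    exact Finset.sum_congr rfl fun k _ => by ring

lemma QB_add (lam : ZMod (d + 3) → ℝ) (Δ : ℝ) (X Y Z : ZMod (d + 3) → ℝ) :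
    QB lam Δ (fun k => X k + Y k) Z = QB lam Δ X Z + QB lam Δ Y Z := by
  have h1 : ∑ k, ((X (k + 1) + Y (k + 1)) - (X (k - 1) + Y (k - 1))) * (Z (k + 1) - Z (k - 1)) / lam k
      = ∑ k, (X (k + 1) - X (k - 1)) * (Z (k + 1) - Z (k - 1)) / lam k
        + ∑ k, (Y (k + 1) - Y (k - 1)) * (Z (k + 1) - Z (k - 1)) / lam k := by
    rw [← Finset.sum_add_distrib]
    exact Finset.sum_congr rfl fun k _ => by ring
  have h2 : ∑ k, lam k * ((X k + Y k) * Z k) = ∑ k, lam k * (X k * Z k) + ∑ k, lam k * (Y k * Z k) := by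
    rw [← Finset.sum_add_distrib]
    exact Finset.sum_congr rfl fun k _ => by ring
  unfold QB
  beta_reduce
  rw [h1, h2]
  ring

lemma QB_smul (lam : ZMod (d + 3) → ℝ) (Δ t : ℝ) (X Z : ZMod (d + 3) → ℝ) :
    QB lam Δ (fun k => t * X k) Z = t * QB lam Δ X Z := by
  have h1 : ∑ k, (t * X (k + 1) - t * X (k - 1)) * (Z (k + 1) - Z (k - 1)) / lam k
      = t * ∑ k, (X (k + 1) - X (k - 1)) * (Z (k + 1) - Z (k - 1)) / lam k := by
    rw [Finset.mul_sum]
    exact Finset.sum_congr rfl fun k _ => by ring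
  have h2 : ∑ k, lam k * (t * X k * Z k) = t * ∑ k, lam k * (X k * Z k) := by
    rw [Finset.mul_sum]
    exact Finset.sum_congr rfl fun k _ => by ring
  unfold QB
  beta_reduce
  rw [h1, h2]
  ring

lemma QB_nul {lam : ZMod (d + 3) → ℝ} {Δ : ℝ} {r : ZMod (d + 3) → ℝ} (h : Nul lam Δ r)
    (X : ZMod (d + 3) → ℝ) : QB lam Δ X r = 0 := by
  have e1 : ∑ k, X (k + 1) * ((r (k + 1) - r (k - 1)) / lam k)
      = ∑ k, X k * ((r k - r (k - 2)) / lam (k - 1)) := by
    rw [← shf (fun k => X k * ((r k - r (k - 2)) / lam (k - 1))) 1]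
    refine Finset.sum_congr rfl fun k _ => ?_
    rw [show k + 1 - 2 = k - 1 by ring, show k + 1 - 1 = k by ring]
  have e2 : ∑ k, X (k - 1) * ((r (k + 1) - r (k - 1)) / lam k)
      = ∑ k, X k * ((r (k + 2) - r k) / lam (k + 1)) := by
    rw [← shf (fun k => X k * ((r (k + 2) - r k) / lam (k + 1))) (-1)]
    refine Finset.sum_congr rfl fun k _ => ?_
    rw [show k + -1 + 2 = k + 1 by ring, show k + -1 + 1 = k by ring, ← sub_eq_add_neg]
  unfold QB
  have e3 : ∑ k, (X (k + 1) - X (k - 1)) * (r (k + 1) - r (k - 1)) / lam k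
      = ∑ k, X k * ((r k - r (k - 2)) / lam (k - 1)) - ∑ k, X k * ((r (k + 2) - r k) / lam (k + 1)) := by
    rw [← e1, ← e2, ← Finset.sum_sub_distrib]
    exact Finset.sum_congr rfl fun k _ => by ring
  rw [e3, ← Finset.sum_sub_distrib, Finset.mul_sum, ← Finset.sum_sub_distrib]
  refine Finset.sum_eq_zero fun k _ => ?_
  have := h k
  have e4 : (r (k + 2) - r k) / lam (k + 1) = - ((r k - r (k + 2)) / lam (k + 1)) := by ring
  rw [e4]
  have e5 : X k * ((r k - r (k - 2)) / lam (k - 1)) - X k * -((r k - r (k + 2)) / lam (k + 1))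
      - 1 / Δ * (lam k * (X k * r k))
      = X k * ((r k - r (k - 2)) / lam (k - 1) + (r k - r (k + 2)) / lam (k + 1)
        - lam k / Δ * r k) := by ring
  rw [e5, this]
  ring

/-- the form is nonnegative on vectors satisfying two conditions -/
lemma QB_sos {lam : ZMod (d + 3) → ℝ} {Δ : ℝ} (hl : ∀ k, 0 < lam k) {S : ZMod (d + 3) → ℝ}
    (hS : Nul lam Δ S) (h0 : S 0 = 0) (hne : ∀ k, k ≠ 0 → S k ≠ 0)
    (hpos : ∀ k, k ≠ 0 → k ≠ 1 → k ≠ -1 → 0 < S (k + 1) * S (k - 1))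
    (X : ZMod (d + 3) → ℝ) (hX : X 0 = 0) (hc : X 1 * S (-1) = X (-1) * S 1) :
    0 ≤ QB lam Δ X X := by
  have h2 : (2 : ZMod (d + 3)) ≠ 0 := by
    intro h
    have h3 : ((2 : ℕ) : ZMod (d + 3)) = 0 := by exact_mod_cast h
    rw [ZMod.natCast_eq_zero_iff] at h3
    have := Nat.le_of_dvd (by norm_num) h3
    omega
  have h1 : (1 : ZMod (d + 3)) ≠ 0 := by
    intro h
    have h3 : ((1 : ℕ) : ZMod (d + 3)) = 0 := by exact_mod_cast h
    rw [ZMod.natCast_eq_zero_iff] at h3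
    have := Nat.le_of_dvd (by norm_num) h3
    omega
  set a : ZMod (d + 3) → ℝ := fun k => X k ^ 2 / S k with ha
  have e1 : ∀ k, lam k / Δ * (X k * X k)
      = a k * ((S k - S (k - 2)) / lam (k - 1)) + a k * ((S k - S (k + 2)) / lam (k + 1)) := by
    intro k
    rw [← mul_add, hS k, ha]
    by_cases hk : k = 0
    · rw [hk, hX, h0]; ring
    · have := hne k hk
      field_simp
  have f1 : ∑ k, a k * ((S k - S (k - 2)) / lam (k - 1))
      = ∑ k, a (k + 1) * ((S (k + 1) - S (k - 1)) / lam k) := by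
    rw [← shf (fun k => a k * ((S k - S (k - 2)) / lam (k - 1))) 1]
    refine Finset.sum_congr rfl fun k _ => ?_
    rw [show k + 1 - 2 = k - 1 by ring, show k + 1 - 1 = k by ring]
  have f2 : ∑ k, a k * ((S k - S (k + 2)) / lam (k + 1))
      = ∑ k, a (k - 1) * ((S (k - 1) - S (k + 1)) / lam k) := by
    rw [← shf (fun k => a k * ((S k - S (k + 2)) / lam (k + 1))) (-1)]
    refine Finset.sum_congr rfl fun k _ => ?_
    rw [show k + -1 + 2 = k + 1 by ring, show k + -1 + 1 = k by ring, ← sub_eq_add_neg]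
  have f3 : 1 / Δ * ∑ k, lam k * (X k * X k)
      = ∑ k, (a (k + 1) * ((S (k + 1) - S (k - 1)) / lam k)
        + a (k - 1) * ((S (k - 1) - S (k + 1)) / lam k)) := by
    rw [Finset.sum_add_distrib, ← f1, ← f2, ← Finset.sum_add_distrib, Finset.mul_sum]
    refine Finset.sum_congr rfl fun k _ => ?_
    rw [← e1]; ring
  unfold QB
  rw [f3, ← Finset.sum_sub_distrib]
  refine Finset.sum_nonneg fun k _ => ?_
  have hlk := hl k
  have g1 : (X (k + 1) - X (k - 1)) * (X (k + 1) - X (k - 1)) / lam k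
      - (a (k + 1) * ((S (k + 1) - S (k - 1)) / lam k)
        + a (k - 1) * ((S (k - 1) - S (k + 1)) / lam k))
      = ((X (k + 1) - X (k - 1)) ^ 2 - a (k + 1) * (S (k + 1) - S (k - 1))
        - a (k - 1) * (S (k - 1) - S (k + 1))) / lam k := by ring
  rw [g1]
  apply div_nonneg _ hlk.le
  simp only [ha]
  by_cases hp : k + 1 = 0
  · have hm : k - 1 ≠ 0 := by
      intro h
      apply h2
      linear_combination hp - h
    have := hne _ hm
    rw [hp, hX, h0]
    have e : (0 - X (k - 1)) ^ 2 - 0 ^ 2 / 0 * (0 - S (k - 1)) - X (k - 1) ^ 2 / S (k - 1) * (S (k - 1) - 0)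
      = 0 := by
      field_simp
      ring
    rw [e]
  by_cases hm : k - 1 = 0
  · have := hne _ hp
    rw [hm, hX, h0]
    have e : (X (k + 1) - 0) ^ 2 - X (k + 1) ^ 2 / S (k + 1) * (S (k + 1) - 0)
      - 0 ^ 2 / 0 * (0 - S (k + 1)) = 0 := by
      field_simp
      ring
    rw [e]
  have hP := hne _ hp
  have hQ := hne _ hm
  have e : (X (k + 1) - X (k - 1)) ^ 2 - X (k + 1) ^ 2 / S (k + 1) * (S (k + 1) - S (k - 1))
      - X (k - 1) ^ 2 / S (k - 1) * (S (k - 1) - S (k + 1))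
      = S (k + 1) * S (k - 1) * (X (k + 1) / S (k + 1) - X (k - 1) / S (k - 1)) ^ 2 := by
    field_simp
    ring
  rw [e]
  by_cases hk : k = 0
  · subst hk
    have h3 : X (0 + 1) / S (0 + 1) - X (0 - 1) / S (0 - 1) = 0 := by
      rw [zero_add] at *
      rw [zero_sub] at *
      rw [sub_eq_zero, div_eq_div_iff hP hQ]
      exact hc
    rw [h3]
    simp
  · refine mul_nonneg (hpos k hk ?_ ?_).le (sq_nonneg _)
    · intro h; apply hm; rw [h]; ring
    · intro h; apply hp; rw [h]; ring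

/-- the weighted Wirtinger inequality -/
theorem wirtinger {lam : ZMod (d + 3) → ℝ} {Δ : ℝ} (hl : ∀ k, 0 < lam k) (hΔ : 0 < Δ)
    {T : ZMod (d + 3) → ℂ} (hre : Nul lam Δ fun k => (T k).re) (him : Nul lam Δ fun k => (T k).im)
    (hne : ∀ k, k ≠ 0 → wdg (T 0) (T k) ≠ 0)
    (hpos : ∀ k, k ≠ 0 → k ≠ 1 → k ≠ -1 → 0 < wdg (T 0) (T (k + 1)) * wdg (T 0) (T (k - 1)))
    (X : ZMod (d + 3) → ℝ) (hX : ∑ k, lam k * X k = 0) :
    ∑ k, lam k * (X k * X k) ≤
      Δ * ∑ k, (X (k + 1) - X (k - 1)) * (X (k + 1) - X (k - 1)) / lam k := by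
  have h1 : (1 : ZMod (d + 3)) ≠ 0 := by
    intro h
    have h3 : ((1 : ℕ) : ZMod (d + 3)) = 0 := by exact_mod_cast h
    rw [ZMod.natCast_eq_zero_iff] at h3
    have := Nat.le_of_dvd (by norm_num) h3
    omega
  set S : ZMod (d + 3) → ℝ := fun k => wdg (T 0) (T k) with hSdef
  have hS : Nul lam Δ S := by
    intro k
    have a := hre k
    have b := him k
    simp only [hSdef, wdg] at *
    have e : (((T 0).re * (T k).im - (T 0).im * (T k).re) -
        ((T 0).re * (T (k - 2)).im - (T 0).im * (T (k - 2)).re)) / lam (k - 1) +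
        (((T 0).re * (T k).im - (T 0).im * (T k).re) -
        ((T 0).re * (T (k + 2)).im - (T 0).im * (T (k + 2)).re)) / lam (k + 1)
        = (T 0).re * (((T k).im - (T (k - 2)).im) / lam (k - 1) + ((T k).im - (T (k + 2)).im) / lam (k + 1))
        - (T 0).im * (((T k).re - (T (k - 2)).re) / lam (k - 1) + ((T k).re - (T (k + 2)).re) / lam (k + 1)) := by
      ring
    rw [e, a, b]; ring
  have hT0 : 0 < (T 0).re ^ 2 + (T 0).im ^ 2 := by
    rcases eq_or_ne (T 0) 0 with h | h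
    · exfalso
      apply hne 1 h1
      rw [h, wdg_zero_left]
    · have h3 : (T 0).re ≠ 0 ∨ (T 0).im ≠ 0 := by
        by_contra hcon
        rw [not_or, not_not, not_not] at hcon
        exact h (Complex.ext hcon.1 hcon.2)
      rcases h3 with h3 | h3
      · have := sq_nonneg (T 0).im
        positivity
      · have := sq_nonneg (T 0).re
        positivity
  set ρ := (T 0).re ^ 2 + (T 0).im ^ 2 with hρ
  -- projection
  set C : ZMod (d + 3) → ℝ := fun k => ((T 0).re / ρ) * (T k).re + ((T 0).im / ρ) * (T k).im with hCdef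
  have hC0 : C 0 = 1 := by
    simp only [hCdef]
    field_simp
    rw [hρ]
  have hCnul : Nul lam Δ C := by
    intro k
    have a := hre k
    have b := him k
    simp only [hCdef] at *
    have e : ((T 0).re / ρ * (T k).re + (T 0).im / ρ * (T k).im -
        ((T 0).re / ρ * (T (k - 2)).re + (T 0).im / ρ * (T (k - 2)).im)) / lam (k - 1) +
        ((T 0).re / ρ * (T k).re + (T 0).im / ρ * (T k).im -
        ((T 0).re / ρ * (T (k + 2)).re + (T 0).im / ρ * (T (k + 2)).im)) / lam (k + 1)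
        = (T 0).re / ρ * (((T k).re - (T (k - 2)).re) / lam (k - 1) + ((T k).re - (T (k + 2)).re) / lam (k + 1))
        + (T 0).im / ρ * (((T k).im - (T (k - 2)).im) / lam (k - 1) + ((T k).im - (T (k + 2)).im) / lam (k + 1)) := by
      ring
    rw [e, a, b]; ring
  have hS0 : S 0 = 0 := wdg_self _
  have key := fun (Y : ZMod (d + 3) → ℝ) (hY : Y 0 = 0) (hc : Y 1 * S (-1) = Y (-1) * S 1) =>
    QB_sos hl hS hS0 hne hpos Y hY hc
  have hcomb : ∀ (Y : ZMod (d + 3) → ℝ) (t u : ℝ),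
      QB lam Δ (fun k => Y k + (t * 1 + u * C k)) (fun k => Y k + (t * 1 + u * C k))
      = QB lam Δ Y Y + 2 * t * QB lam Δ Y (fun _ => 1) + t ^ 2 * QB lam Δ (fun _ => 1) (fun _ => 1) := by
    intro Y t u
    have n1 : ∀ Z, QB lam Δ Z C = 0 := fun Z => QB_nul hCnul Z
    have n2 : ∀ Z, QB lam Δ C Z = 0 := fun Z => by rw [QB_comm]; exact n1 Z
    rw [QB_add lam Δ Y (fun k => t * 1 + u * C k), QB_add lam Δ (fun _ => t * 1) (fun k => u * C k),
      QB_smul lam Δ t (fun _ => 1), QB_smul lam Δ u C, n2, mul_zero, add_zero,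
      QB_comm lam Δ Y, QB_comm lam Δ (fun _ => 1),
      QB_add lam Δ Y (fun k => t * 1 + u * C k), QB_add lam Δ (fun _ => t * 1) (fun k => u * C k),
      QB_smul lam Δ t (fun _ => 1), QB_smul lam Δ u C, n2,
      QB_add lam Δ Y (fun k => t * 1 + u * C k), QB_add lam Δ (fun _ => t * 1) (fun k => u * C k),
      QB_smul lam Δ t (fun _ => 1), QB_smul lam Δ u C, n2, QB_comm lam Δ (fun _ => 1) Y]
    ring
  have hone : QB lam Δ (fun _ => 1) (fun _ => 1) = - (1 / Δ * ∑ k, lam k) := by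
    unfold QB
    simp
  have hlsum : 0 < ∑ k, lam k := Finset.sum_pos (fun k _ => hl k) Finset.univ_nonempty
  have honeneg : QB lam Δ (fun _ => 1) (fun _ => 1) < 0 := by
    rw [hone]
    have : 0 < 1 / Δ * ∑ k, lam k := by positivity
    linarith
  -- the linear functional
  set L : (ZMod (d + 3) → ℝ) → ℝ := fun Y => (Y 1 - Y 0 * C 1) * S (-1) - (Y (-1) - Y 0 * C (-1)) * S 1
    with hL
  have hL1 : L (fun _ => 1) ≠ 0 := by
    intro h
    have h3 := key (fun k => (0 : ℝ) + (1 * 1 + (-1) * C k)) (by rw [hC0]; ring) (by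
      simp only [hL] at h
      linarith)
    have h4 := hcomb (fun _ => 0) 1 (-1)
    rw [h4] at h3
    have h5 : QB lam Δ (fun _ => 0) (fun _ => 0) = 0 := by unfold QB; simp
    have h6 : QB lam Δ (fun _ => 0) (fun _ => 1) = 0 := by unfold QB; simp
    rw [h5, h6] at h3
    linarith
  set t := - (L X / L (fun _ => 1)) with ht
  have h3 := key (fun k => X k + (t * 1 + (-(X 0 + t)) * C k)) (by rw [hC0]; ring) (by
    have e : L X + t * L (fun _ => 1) = 0 := by
      rw [ht]; field_simp; ring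
    simp only [hL] at e
    linarith)
  rw [hcomb] at h3
  have h6 : QB lam Δ X (fun _ => 1) = 0 := by
    unfold QB
    have : ∑ k, lam k * (X k * 1) = 0 := by simpa using hX
    rw [this]
    simp
  rw [h6] at h3
  have h7 : t ^ 2 * QB lam Δ (fun _ => 1) (fun _ => 1) ≤ 0 :=
    mul_nonpos_of_nonneg_of_nonpos (sq_nonneg _) honeneg.le
  have h8 : 0 ≤ QB lam Δ X X := by linarith
  unfold QB at h8
  have h9 : 1 / Δ * ∑ k, lam k * (X k * X k) ≤
      ∑ k, (X (k + 1) - X (k - 1)) * (X (k + 1) - X (k - 1)) / lam k := by linarith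
  have h10 := mul_le_mul_of_nonneg_left h9 hΔ.le
  rw [← mul_assoc, mul_one_div_cancel hΔ.ne', one_mul] at h10
  exact h10

end Pool.Agent.Zk86.CycZ
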