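import Pool.Agent.K3h40.Cyc.QB
import Pool.Agent.Zk86.CycZ.Wirt

/-! Potentials of real sequences with sum zero. -/

namespace Pool.Agent.Zk86.CycZ

open Finset Pool.Agent.K3h40.Cyc

variable {d : ℕ}

lemma kk_anti (i j : ℕ) : kk i j = - kk j i := by
  unfold kk
  split_ifs <;> omega

/-- potential of a real sequence -/
noncomputable def pt (x : ZMod (d + 3) → ℝ) (j : ZMod (d + 3)) : ℝ :=
  (1 / 2) * ∑ i : ZMod (d + 3), (kk i.val j.val : ℝ) * x i

lemma Gf_re (g : ZMod (d + 3) → ℂ) (j : ZMod (d + 3)) :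
    (Gf g j).re = pt (fun i => (g i).re) j := by
  unfold Gf pt
  have h : (1 / 2 : ℂ) = ((1 / 2 : ℝ) : ℂ) := by push_cast; rfl
  rw [h, Complex.re_ofReal_mul, Complex.re_sum]
  congr 1
  refine Finset.sum_congr rfl fun i _ => ?_
  rw [← Complex.ofReal_intCast, Complex.re_ofReal_mul]

lemma Gf_im (g : ZMod (d + 3) → ℂ) (j : ZMod (d + 3)) :
    (Gf g j).im = pt (fun i => (g i).im) j := by
  unfold Gf pt
  have h : (1 / 2 : ℂ) = ((1 / 2 : ℝ) : ℂ) := by push_cast; rfl
  rw [h, Complex.im_ofReal_mul, Complex.im_sum]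
  congr 1
  refine Finset.sum_congr rfl fun i _ => ?_
  rw [← Complex.ofReal_intCast, Complex.im_ofReal_mul]

lemma pt_anti (x y : ZMod (d + 3) → ℝ) : ∑ j, pt x j * y j = -∑ j, pt y j * x j := by
  unfold pt
  have e1 : ∑ j : ZMod (d + 3), (1 / 2) * (∑ i : ZMod (d + 3), (kk i.val j.val : ℝ) * x i) * y j
      = ∑ j : ZMod (d + 3), ∑ i : ZMod (d + 3), (1 / 2) * (kk i.val j.val : ℝ) * x i * y j := by
    refine Finset.sum_congr rfl fun j _ => ?_
    rw [Finset.mul_sum, Finset.sum_mul]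
    exact Finset.sum_congr rfl fun i _ => by ring
  have e2 : ∑ j : ZMod (d + 3), (1 / 2) * (∑ i : ZMod (d + 3), (kk i.val j.val : ℝ) * y i) * x j
      = ∑ j : ZMod (d + 3), ∑ i : ZMod (d + 3), (1 / 2) * (kk i.val j.val : ℝ) * y i * x j := by
    refine Finset.sum_congr rfl fun j _ => ?_
    rw [Finset.mul_sum, Finset.sum_mul]
    exact Finset.sum_congr rfl fun i _ => by ring
  rw [e1, e2, Finset.sum_comm, ← Finset.sum_neg_distrib]
  refine Finset.sum_congr rfl fun j _ => ?_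
  rw [← Finset.sum_neg_distrib]
  refine Finset.sum_congr rfl fun i _ => ?_
  rw [kk_anti j.val i.val]
  push_cast
  ring

lemma pt_self (x : ZMod (d + 3) → ℝ) : ∑ j, pt x j * x j = 0 := by
  have := pt_anti x x
  linarith

lemma pt_rel (hd : Even d) (x : ZMod (d + 3) → ℝ) (hx : ∑ i, x i = 0) (k : ZMod (d + 3)) :
    x (k + 1) = pt x k - pt x (k + 2) := by
  have h1 : ∑ i : ZMod (d + 3), ((x i : ℝ) : ℂ) = 0 := by
    rw [← Complex.ofReal_sum, hx, Complex.ofReal_zero]
  have h := congrArg Complex.re (Gf_rel hd (fun i => ((x i : ℝ) : ℂ)) h1 k)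
  rw [Complex.sub_re, Gf_re, Gf_re] at h
  simpa using h

lemma SS_pt (g : ZMod (d + 3) → ℂ) (hg : ∑ i, g i = 0) :
    SS g = ∑ j, pt (fun i => (g i).re) j * (g j).im := by
  have h1 := QQ_eq_two_SS g hg
  have h2 := QQ_eq g
  have h3 : ∑ j, wdg (Gf g j) (g j) = ∑ j, pt (fun i => (g i).re) j * (g j).im
      - ∑ j, pt (fun i => (g i).im) j * (g j).re := by
    rw [← Finset.sum_sub_distrib]
    refine Finset.sum_congr rfl fun j _ => ?_
    rw [← Gf_re, ← Gf_im]
    rfl
  have h4 := pt_anti (fun i => (g i).im) (fun i => (g i).re)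
  rw [h3, h4] at h2
  rw [h2] at h1
  linarith

lemma SS_pt' (g : ZMod (d + 3) → ℂ) (hg : ∑ i, g i = 0) :
    ∑ j, pt (fun i => (g i).im) j * (g j).re = - SS g := by
  rw [SS_pt g hg, pt_anti]

lemma J_re (g : ZMod (d + 3) → ℂ) (hg : ∑ i, g i = 0) (z : ℂ) :
    ∑ j, wdg (Gf g j) z * (g j).re = SS g * z.re := by
  have h1 : ∀ j, wdg (Gf g j) z * (g j).re = z.im * (pt (fun i => (g i).re) j * (g j).re)
      - z.re * (pt (fun i => (g i).im) j * (g j).re) := by
    intro j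
    rw [← Gf_re, ← Gf_im]
    unfold wdg
    ring
  simp_rw [h1]
  rw [Finset.sum_sub_distrib, ← Finset.mul_sum, ← Finset.mul_sum, pt_self, SS_pt' g hg]
  ring

lemma J_im (g : ZMod (d + 3) → ℂ) (hg : ∑ i, g i = 0) (z : ℂ) :
    ∑ j, wdg (Gf g j) z * (g j).im = SS g * z.im := by
  have h1 : ∀ j, wdg (Gf g j) z * (g j).im = z.im * (pt (fun i => (g i).re) j * (g j).im)
      - z.re * (pt (fun i => (g i).im) j * (g j).im) := by
    intro j
    rw [← Gf_re, ← Gf_im]
    unfold wdg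
    ring
  simp_rw [h1]
  rw [Finset.sum_sub_distrib, ← Finset.mul_sum, ← Finset.mul_sum, pt_self, ← SS_pt g hg]
  ring

/-- effect on `SS` of subtracting a multiple of a fixed vector -/
lemma SS_sub (g : ZMod (d + 3) → ℂ) (hg : ∑ i, g i = 0) (β : ZMod (d + 3) → ℝ) (z : ℂ)
    (hs : ∑ i, (g i - (β i : ℂ) * z) = 0) :
    SS (fun i => g i - (β i : ℂ) * z) = SS g - ∑ j, β j * wdg (Gf g j) z := by
  have h1 := QQ_eq_two_SS g hg
  have h2 := QQ_eq_two_SS _ hs
  rw [QQ_eq] at h1 h2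
  have hGf : ∀ j, Gf (fun i => g i - (β i : ℂ) * z) j = Gf g j - (pt β j : ℂ) * z := by
    intro j
    unfold Gf pt
    push_cast
    rw [mul_assoc, ← mul_sub]
    congr 1
    rw [Finset.sum_mul, ← Finset.sum_sub_distrib]
    exact Finset.sum_congr rfl fun i _ => by ring
  have h3 : ∀ j, wdg (Gf (fun i => g i - (β i : ℂ) * z) j) (g j - (β j : ℂ) * z)
      = wdg (Gf g j) (g j) - β j * wdg (Gf g j) z - pt β j * wdg z (g j) := by
    intro j
    rw [hGf, wdg_sub_left, wdg_sub_right, wdg_sub_right, wdg_real_mul_left, wdg_real_mul_right,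
      wdg_real_mul_left, wdg_real_mul_right, wdg_self]
    ring
  have h4 : ∑ j, pt β j * wdg z (g j) = ∑ j, β j * wdg (Gf g j) z := by
    have e1 : ∑ j, pt β j * wdg z (g j) = z.re * ∑ j, pt β j * (g j).im
        - z.im * ∑ j, pt β j * (g j).re := by
      rw [Finset.mul_sum, Finset.mul_sum, ← Finset.sum_sub_distrib]
      exact Finset.sum_congr rfl fun j _ => by unfold wdg; ring
    have e2 : ∑ j, β j * wdg (Gf g j) z = z.im * ∑ j, pt (fun i => (g i).re) j * β j
        - z.re * ∑ j, pt (fun i => (g i).im) j * β j := by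
      rw [Finset.mul_sum, Finset.mul_sum, ← Finset.sum_sub_distrib]
      refine Finset.sum_congr rfl fun j _ => ?_
      rw [← Gf_re, ← Gf_im]
      unfold wdg
      ring
    rw [e1, e2, pt_anti β (fun i => (g i).im), pt_anti β (fun i => (g i).re)]
    ring
  simp_rw [h3] at h2
  rw [Finset.sum_sub_distrib, Finset.sum_sub_distrib, h4, h1] at h2
  linarith

end Pool.Agent.Zk86.CycZ
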