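import Pool.Agent.K3h40.Cyc.Cover
import Pool.Agent.Zk86.CycZ.Pot

/-! A strict inequality between the area functional and single areas. -/

namespace Pool.Agent.Zk86.CycZ

open Finset Pool.Agent.K3h40.Cyc

variable {d : ℕ}

lemma wdg_odd_even {g : Fin (d + 3) → ℂ} {a b : Fin (d + 3)} (ha : a.val % 2 = 1)
    (hb : b.val % 2 = 0) : wdg (ee g a) (ee g b) = - wdg (g a) (g b) := by
  rw [g_odd (g := g) ha, g_even (g := g) hb, wdg_neg_left, neg_neg]

lemma wdg_even_odd {g : Fin (d + 3) → ℂ} {a b : Fin (d + 3)} (ha : a.val % 2 = 0)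
    (hb : b.val % 2 = 1) : wdg (ee g a) (ee g b) = - wdg (g a) (g b) := by
  rw [g_even (g := g) ha, g_odd (g := g) hb, wdg_neg_right, neg_neg]

lemma SS_one (g : Fin (d + 3) → ℂ) : SS (d := d) g = ∑ ab : Fin (d + 3) × Fin (d + 3),
    if (ab.1 < ab.2 ∧ ab.1.val % 2 = 1 ∧ ab.2.val % 2 = 0) then wdg (ee g ab.1) (ee g ab.2) else 0 := by
  rw [Fintype.sum_prod_type]
  unfold SS
  rw [← Finset.sum_neg_distrib]
  refine Finset.sum_congr rfl fun (i : Fin (d + 3)) _ => ?_
  rw [← Finset.sum_neg_distrib]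
  refine Finset.sum_congr rfl fun (j : Fin (d + 3)) _ => ?_
  have e : ((ZMod.val (n := d + 3) i) < (ZMod.val (n := d + 3) j) ∧ (ZMod.val (n := d + 3) i) % 2 = 1 ∧
    (ZMod.val (n := d + 3) j) % 2 = 0) ↔ (i < j ∧ i.val % 2 = 1 ∧ j.val % 2 = 0) := Iff.rfl
  by_cases h : i < j ∧ i.val % 2 = 1 ∧ j.val % 2 = 0
  · rw [if_pos (e.2 h), if_pos h, wdg_odd_even h.2.1 h.2.2]
  · rw [if_neg (fun h' => h (e.1 h')), if_neg h, neg_zero]

lemma SS_two (g : Fin (d + 3) → ℂ) (hg : ∑ i, g i = 0) :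
    SS (d := d) g = ∑ ab : Fin (d + 3) × Fin (d + 3),
    if (ab.1 < ab.2 ∧ ab.1.val % 2 = 0 ∧ ab.2.val % 2 = 1) then wdg (ee g ab.1) (ee g ab.2) else 0 := by
  have h1 := QQ_eq_two_SS (d := d) g hg
  have h2 : QQ (d := d) g = (∑ ab : Fin (d + 3) × Fin (d + 3),
    if (ab.1 < ab.2 ∧ ab.1.val % 2 = 1 ∧ ab.2.val % 2 = 0) then wdg (ee g ab.1) (ee g ab.2) else 0)
    + ∑ ab : Fin (d + 3) × Fin (d + 3),
    if (ab.1 < ab.2 ∧ ab.1.val % 2 = 0 ∧ ab.2.val % 2 = 1) then wdg (ee g ab.1) (ee g ab.2) else 0 := by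
    rw [← Finset.sum_add_distrib, Fintype.sum_prod_type]
    unfold QQ
    rw [← Finset.sum_neg_distrib]
    refine Finset.sum_congr rfl fun (i : Fin (d + 3)) _ => ?_
    rw [← Finset.sum_neg_distrib]
    refine Finset.sum_congr rfl fun (j : Fin (d + 3)) _ => ?_
    have e : ((ZMod.val (n := d + 3) i) < (ZMod.val (n := d + 3) j) ∧
      ((ZMod.val (n := d + 3) i) + (ZMod.val (n := d + 3) j)) % 2 = 1) ↔
      (i < j ∧ (i.val + j.val) % 2 = 1) := Iff.rfl
    show _ = (if (i < j ∧ i.val % 2 = 1 ∧ j.val % 2 = 0) then wdg (ee g i) (ee g j) else 0)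
      + (if (i < j ∧ i.val % 2 = 0 ∧ j.val % 2 = 1) then wdg (ee g i) (ee g j) else 0)
    by_cases h : i < j ∧ (i.val + j.val) % 2 = 1
    · rw [if_pos (e.2 h)]
      have h5 := h.2
      rcases Nat.mod_two_eq_zero_or_one i.val with hi | hi
      · have hj : j.val % 2 = 1 := by omega
        rw [if_neg (fun h' => by omega), if_pos ⟨h.1, hi, hj⟩, wdg_even_odd hi hj, zero_add]
      · have hj : j.val % 2 = 0 := by omega
        rw [if_neg (c := i < j ∧ i.val % 2 = 0 ∧ j.val % 2 = 1) (fun h' => by omega),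
          if_pos ⟨h.1, hi, hj⟩, wdg_odd_even hi hj, add_zero]
    · have n1 : ¬ (i < j ∧ i.val % 2 = 1 ∧ j.val % 2 = 0) := fun h' =>
        h ⟨h'.1, by have := h'.2.1; have := h'.2.2; omega⟩
      have n2 : ¬ (i < j ∧ i.val % 2 = 0 ∧ j.val % 2 = 1) := fun h' =>
        h ⟨h'.1, by have := h'.2.1; have := h'.2.2; omega⟩
      rw [if_neg (fun h' => h (e.1 h')), if_neg n1, if_neg n2]
      simp
  rw [← SS_one, h1] at h2
  linarith

lemma lt_one (hd : Even d) (hd0 : 0 < d) {g : Fin (d + 3) → ℂ} (hpos : Pos g) {a b : Fin (d + 3)}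
    (hab : a < b) (ha : a.val % 2 = 1) (hb : b.val % 2 = 0) :
    wdg (ee g a) (ee g b) < SS (d := d) g := by
  obtain ⟨m, hm⟩ := hd
  rw [SS_one]
  have hf : ∀ ab : Fin (d + 3) × Fin (d + 3), 0 ≤ (if (ab.1 < ab.2 ∧ ab.1.val % 2 = 1 ∧ ab.2.val % 2 = 0)
      then wdg (ee g ab.1) (ee g ab.2) else 0) := by
    intro ab
    split_ifs with h
    · exact (hpos _ _ h.1).le
    · exact le_rfl
  have hoth : ∃ c e : Fin (d + 3), (c, e) ≠ (a, b) ∧ c < e ∧ c.val % 2 = 1 ∧ e.val % 2 = 0 := by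
    by_cases h : a.val = 1 ∧ b.val = 2
    · refine ⟨⟨3, by omega⟩, ⟨4, by omega⟩, ?_, by simp [Fin.lt_def], by simp, by simp⟩
      intro h'
      have := congrArg (fun q => q.1.val) h'
      simp only at this
      omega
    · refine ⟨⟨1, by omega⟩, ⟨2, by omega⟩, ?_, by simp [Fin.lt_def], by simp, by simp⟩
      intro h'
      apply h
      have h1 := congrArg (fun q => q.1.val) h'
      have h2 := congrArg (fun q => q.2.val) h'
      simp only at h1 h2
      omega
  obtain ⟨c, e, hne, hce, hc, he⟩ := hoth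
  have := Finset.single_lt_sum (s := Finset.univ) (f := fun ab : Fin (d + 3) × Fin (d + 3) =>
    (if (ab.1 < ab.2 ∧ ab.1.val % 2 = 1 ∧ ab.2.val % 2 = 0)
      then wdg (ee g ab.1) (ee g ab.2) else 0)) hne (Finset.mem_univ (a, b)) (Finset.mem_univ (c, e))
      (by simp only; rw [if_pos ⟨hce, hc, he⟩]; exact hpos _ _ hce) (fun k _ _ => hf k)
  simp only at this
  rw [if_pos ⟨hab, ha, hb⟩] at this
  exact this

lemma lt_two (hd : Even d) (hd0 : 0 < d) {g : Fin (d + 3) → ℂ} (hpos : Pos g) (hg : ∑ i, g i = 0)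
    {a b : Fin (d + 3)} (hab : a < b) (ha : a.val % 2 = 0) (hb : b.val % 2 = 1) :
    wdg (ee g a) (ee g b) < SS (d := d) g := by
  obtain ⟨m, hm⟩ := hd
  rw [SS_two g hg]
  have hf : ∀ ab : Fin (d + 3) × Fin (d + 3), 0 ≤ (if (ab.1 < ab.2 ∧ ab.1.val % 2 = 0 ∧ ab.2.val % 2 = 1)
      then wdg (ee g ab.1) (ee g ab.2) else 0) := by
    intro ab
    split_ifs with h
    · exact (hpos _ _ h.1).le
    · exact le_rfl
  have hoth : ∃ c e : Fin (d + 3), (c, e) ≠ (a, b) ∧ c < e ∧ c.val % 2 = 0 ∧ e.val % 2 = 1 := by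
    by_cases h : a.val = 0 ∧ b.val = 1
    · refine ⟨⟨2, by omega⟩, ⟨3, by omega⟩, ?_, by simp [Fin.lt_def], by simp, by simp⟩
      intro h'
      have := congrArg (fun q => q.1.val) h'
      simp only at this
      omega
    · refine ⟨⟨0, by omega⟩, ⟨1, by omega⟩, ?_, by simp [Fin.lt_def], by simp, by simp⟩
      intro h'
      apply h
      have h1 := congrArg (fun q => q.1.val) h'
      have h2 := congrArg (fun q => q.2.val) h'
      simp only at h1 h2
      omega
  obtain ⟨c, e, hne, hce, hc, he⟩ := hoth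
  have := Finset.single_lt_sum (s := Finset.univ) (f := fun ab : Fin (d + 3) × Fin (d + 3) =>
    (if (ab.1 < ab.2 ∧ ab.1.val % 2 = 0 ∧ ab.2.val % 2 = 1)
      then wdg (ee g ab.1) (ee g ab.2) else 0)) hne (Finset.mem_univ (a, b)) (Finset.mem_univ (c, e))
      (by simp only; rw [if_pos ⟨hce, hc, he⟩]; exact hpos _ _ hce) (fun k _ _ => hf k)
  simp only at this
  rw [if_pos ⟨hab, ha, hb⟩] at this
  exact this

lemma SS_pos (hd : Even d) (hd0 : 0 < d) {g : Fin (d + 3) → ℂ} (hpos : Pos g) :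
    0 < SS (d := d) g := by
  have h1 : (⟨1, by omega⟩ : Fin (d + 3)) < ⟨2, by omega⟩ := by simp [Fin.lt_def]
  have := lt_one hd hd0 hpos h1 (by simp) (by simp)
  exact (hpos _ _ h1).trans this

/-- for every index there is another one for which the difference of the potentials is small -/
lemma exists_small (hd : Even d) (hd0 : 0 < d) {g : ZMod (d + 3) → ℂ} (hpos : Pos (d := d) g)
    (hg : ∑ i, g i = 0) (i : ZMod (d + 3)) :
    ∃ l : ZMod (d + 3), l ≠ i ∧
      wdg (Gf (d := d) g i - Gf (d := d) g l) (g i) < SS (d := d) g := by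
  have h2 : (2 : ZMod (d + 3)) ≠ 0 := by
    intro h
    have h3 : ((2 : ℕ) : ZMod (d + 3)) = 0 := by exact_mod_cast h
    rw [ZMod.natCast_eq_zero_iff] at h3
    have := Nat.le_of_dvd (by norm_num) h3
    omega
  have hi := ZMod.val_lt i
  obtain ⟨m, hm⟩ := id hd
  by_cases hlast : i.val = d + 2
  · refine ⟨i - 2, fun h => h2 (by linear_combination -h), ?_⟩
    have h1 := Gf_rel hd g hg (i - 2)
    rw [show i - 2 + 2 = i by ring, show i - 2 + 1 = i - 1 by ring] at h1
    have h2 : Gf (d := d) g i - Gf (d := d) g (i - 2) = - g (i - 1) := by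
      rw [h1]; ring
    rw [h2]
    have hv : (i - 1).val = d + 1 := by
      have h3 := val_succ_cases (i - 1)
      rw [show i - 1 + 1 = i by ring] at h3
      omega
    generalize i - 1 = k at hv ⊢
    have hlt : @LT.lt (Fin (d + 3)) _ k i := by
      show k.val < i.val
      omega
    have h4 := lt_one hd hd0 hpos hlt (show k.val % 2 = 1 by omega) (show i.val % 2 = 0 by omega)
    rw [wdg_odd_even (show k.val % 2 = 1 by omega) (show i.val % 2 = 0 by omega)] at h4
    rw [wdg_neg_left]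
    exact h4
  · refine ⟨i + 2, fun h => h2 (by linear_combination h), ?_⟩
    have h1 := Gf_rel hd g hg i
    rw [← h1]
    have hv : (i + 1).val = i.val + 1 := by
      have h3 := val_succ_cases i
      omega
    generalize i + 1 = k at hv ⊢
    have hlt : @LT.lt (Fin (d + 3)) _ i k := by
      show i.val < k.val
      omega
    rw [wdg_comm]
    rcases Nat.mod_two_eq_zero_or_one i.val with h | h
    · have h4 := lt_two hd hd0 hpos hg hlt (show i.val % 2 = 0 from h) (show k.val % 2 = 1 by omega)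
      rw [wdg_even_odd (show i.val % 2 = 0 from h) (show k.val % 2 = 1 by omega)] at h4
      exact h4
    · have h4 := lt_one hd hd0 hpos hlt (show i.val % 2 = 1 from h) (show k.val % 2 = 0 by omega)
      rw [wdg_odd_even (show i.val % 2 = 1 from h) (show k.val % 2 = 0 by omega)] at h4
      exact h4

end Pool.Agent.Zk86.CycZ
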