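import Pool.Agent.K3h40.Cyc.Final
import Pool.Agent.Zk86.CycZ.Diag

/-! Critical configurations. -/

namespace Pool.Agent.Zk86.CycZ

open Finset Pool.Agent.K3h40.Cyc
open scoped Matrix

variable {d : ℕ}

/-- critical configurations of the volume with multipliers `lam` -/
structure Crit (p : Fin (d + 3) → EE d) (g : ZMod (d + 3) → ℂ) (lam nu : ZMod (d + 3) → ℝ) : Prop where
  gale : Gale p g
  hD : (gram p).det ≠ 0
  pos : Pos (d := d) g
  norm : ∀ i, ‖p i‖ = 1
  star : ∀ i j : ZMod (d + 3), (if j = i then SS (d := d) g else 0) - wdg (Gf (d := d) g j) (g i)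
    = nu i + lam i * ∑ c : Fin d, p j c * p i c

variable {p : Fin (d + 3) → EE d} {g : ZMod (d + 3) → ℂ} {lam nu : ZMod (d + 3) → ℝ}

lemma norm_sum (h : Crit p g lam nu) (i : Fin (d + 3)) : ∑ c : Fin d, p i c * p i c = 1 := by
  have h1 := EuclideanSpace.norm_sq_eq (p i)
  rw [h.norm i] at h1
  have h2 : ∑ c : Fin d, p i c * p i c = ∑ c : Fin d, ‖p i c‖ ^ 2 := by
    refine Finset.sum_congr rfl fun c _ => ?_
    rw [Real.norm_eq_abs, sq_abs]; ring
  rw [h2, ← h1]; norm_num

lemma sumg (h : Crit p g lam nu) : ∑ i, g i = 0 := h.gale.sum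

/-- the matrix identity -/
lemma euler (h : Crit p g lam nu) (a b : Fin (d + 1)) :
    ∑ i : ZMod (d + 3), aug p i a * (Fin.cons (nu i) (fun c : Fin d => lam i * p i c) : Fin (d + 1) → ℝ) b
      = if a = b then SS (d := d) g else 0 := by
  set s := SS (d := d) g with hs
  set W : ZMod (d + 3) → Fin (d + 1) → ℝ := fun i => Fin.cons (nu i) (fun c : Fin d => lam i * p i c)
    with hW
  set A : Matrix (Fin (d + 1)) (Fin (d + 1)) ℝ := fun a b => ∑ i : ZMod (d + 3), aug p i a * W i b with hA
  have hst : ∀ i j : ZMod (d + 3), ∑ b, W i b * aug p j b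
      = (if j = i then s else 0) - wdg (Gf (d := d) g j) (g i) := by
    intro i j
    rw [h.star i j, Fin.sum_univ_succ]
    simp only [hW, Fin.cons_zero, Fin.cons_succ, aug_zero, aug_succ, mul_one]
    rw [Finset.mul_sum]
    congr 1
    exact Finset.sum_congr rfl fun c _ => by ring
  have h1 : (A - s • (1 : Matrix (Fin (d + 1)) (Fin (d + 1)) ℝ)) * (aug p)ᵀ = 0 := by
    ext a j
    rw [Matrix.sub_mul, Matrix.sub_apply, Matrix.smul_mul, Matrix.one_mul, Matrix.smul_apply,
      Matrix.mul_apply, Matrix.zero_apply, smul_eq_mul]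
    simp only [Matrix.transpose_apply, hA]
    have e1 : ∑ b, (∑ i : ZMod (d + 3), aug p i a * W i b) * aug p j b
        = ∑ i : ZMod (d + 3), aug p i a * ∑ b, W i b * aug p j b := by
      simp_rw [Finset.sum_mul, Finset.mul_sum]
      rw [Finset.sum_comm]
      exact Finset.sum_congr rfl fun i _ => Finset.sum_congr rfl fun b _ => by ring
    rw [e1]
    have e2 : ∑ i : ZMod (d + 3), aug p i a * ∑ b, W i b * aug p j b
        = ∑ i : ZMod (d + 3), (if (show ZMod (d + 3) from j) = i then aug p i a * s else 0)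
          - wdg (Gf (d := d) g j) (∑ i : ZMod (d + 3), (aug p i a : ℂ) * g i) := by
      rw [wdg_sum_right, ← Finset.sum_sub_distrib]
      refine Finset.sum_congr rfl fun i _ => ?_
      rw [hst i j, wdg_real_mul_right]
      by_cases hij : (show ZMod (d + 3) from j) = i
      · rw [if_pos hij, if_pos hij]; ring
      · rw [if_neg hij, if_neg hij]; ring
    rw [e2]
    have e3 : ∑ i : ZMod (d + 3), (aug p i a : ℂ) * g i = 0 := h.gale.sum_g a
    rw [e3, wdg_zero_right, Finset.sum_ite_eq Finset.univ (show ZMod (d + 3) from j)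
      (fun i => aug p i a * s), if_pos (Finset.mem_univ _)]
    ring
  have h2 : (A - s • (1 : Matrix (Fin (d + 1)) (Fin (d + 1)) ℝ)) * gram p = 0 := by
    unfold gram
    rw [← Matrix.mul_assoc, h1, Matrix.zero_mul]
  have h3 : A - s • (1 : Matrix (Fin (d + 1)) (Fin (d + 1)) ℝ) = 0 := by
    have hu : IsUnit (gram p).det := isUnit_iff_ne_zero.2 h.hD
    have := congrArg (fun Z => Z * (gram p)⁻¹) h2
    simp only [Matrix.mul_assoc, Matrix.mul_nonsing_inv _ hu, Matrix.mul_one, Matrix.zero_mul] at this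
    exact this
  have h4 : A a b = (s • (1 : Matrix (Fin (d + 1)) (Fin (d + 1)) ℝ)) a b := by
    rw [sub_eq_zero.1 h3]
  rw [Matrix.smul_apply, Matrix.one_apply, smul_eq_mul, mul_ite, mul_one, mul_zero] at h4
  exact h4

lemma E1 (h : Crit p g lam nu) (c : Fin d) : ∑ i : ZMod (d + 3), lam i * p i c = 0 := by
  have := euler h 0 c.succ
  rw [if_neg (Fin.succ_ne_zero c).symm] at this
  simpa using this

lemma E2 (h : Crit p g lam nu) (a b : Fin d) :
    ∑ i : ZMod (d + 3), lam i * (p i a * p i b) = if a = b then SS (d := d) g else 0 := by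
  have := euler h a.succ b.succ
  simp only [aug_succ, Fin.cons_succ, Fin.succ_inj] at this
  rw [← this]
  exact Finset.sum_congr rfl fun i _ => by ring

lemma lam_pos (hd : Even d) (hd0 : 0 < d) (h : Crit p g lam nu) (i : ZMod (d + 3)) : 0 < lam i := by
  obtain ⟨l, hli, hl⟩ := exists_small hd hd0 h.pos (sumg h) i
  have h1 := h.star i i
  have h2 := h.star i l
  rw [if_pos rfl, norm_sum h i] at h1
  rw [if_neg hli] at h2
  rw [wdg_sub_left] at hl
  have h3 : 0 < lam i * (1 - ∑ c : Fin d, p l c * p i c) := by linarith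
  have h4 : 0 ≤ 1 - ∑ c : Fin d, p l c * p i c := by
    have e1 := norm_sum h i
    have e2 := norm_sum h l
    have e3 : 0 ≤ ∑ c : Fin d, (p l c - p i c) * (p l c - p i c) :=
      Finset.sum_nonneg fun c _ => mul_self_nonneg _
    have e4 : ∑ c : Fin d, (p l c - p i c) * (p l c - p i c)
        = ∑ c : Fin d, p l c * p l c + ∑ c : Fin d, p i c * p i c - 2 * ∑ c : Fin d, p l c * p i c := by
      rw [Finset.mul_sum, ← Finset.sum_add_distrib, ← Finset.sum_sub_distrib]
      exact Finset.sum_congr rfl fun c _ => by ring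
    have e2' : ∑ c : Fin d, p l c * p l c = 1 := e2
    have e1' : ∑ c : Fin d, p i c * p i c = 1 := e1
    rw [e4, e1', e2'] at e3
    linarith
  by_contra hneg
  have := mul_nonpos_of_nonpos_of_nonneg (not_lt.1 hneg) h4
  linarith

lemma sum_lam (h : Crit p g lam nu) : ∑ i : ZMod (d + 3), lam i = d * SS (d := d) g := by
  have h1 : ∑ i : ZMod (d + 3), lam i = ∑ i : ZMod (d + 3), ∑ c : Fin d, lam i * (p i c * p i c) := by
    refine Finset.sum_congr rfl fun i _ => ?_
    rw [← Finset.mul_sum, norm_sum h i, mul_one]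
  rw [h1, Finset.sum_comm]
  have h2 : ∀ c : Fin d, ∑ i : ZMod (d + 3), lam i * (p i c * p i c) = SS (d := d) g := by
    intro c
    rw [E2 h, if_pos rfl]
  simp_rw [h2]
  simp

/-- the second-order conditions of the direction of the configuration -/
lemma Bzero (h : Crit p g lam nu) (c : Fin d) :
    ∑ j : ZMod (d + 3), ((lam j * p j c : ℝ) : ℂ) * Gf (d := d) g j = 0 := by
  set z := ∑ j : ZMod (d + 3), ((lam j * p j c : ℝ) : ℂ) * Gf (d := d) g j with hz
  have key : ∀ i : ZMod (d + 3), wdg z (g i) = 0 := by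
    intro i
    rw [hz, wdg_sum_left]
    have h1 : ∀ j : ZMod (d + 3), wdg (((lam j * p j c : ℝ) : ℂ) * Gf (d := d) g j) (g i)
        = (if j = i then lam j * p j c * SS (d := d) g else 0) - nu i * (lam j * p j c)
          - lam i * ∑ a : Fin d, p i a * (lam j * (p j c * p j a)) := by
      intro j
      rw [wdg_real_mul_left]
      have := h.star i j
      have e : wdg (Gf (d := d) g j) (g i) = (if j = i then SS (d := d) g else 0) - nu i
          - lam i * ∑ c : Fin d, p j c * p i c := by linarith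
      rw [e, mul_sub, mul_sub, mul_ite, mul_zero]
      congr 1
      · congr 1
        ring
      · rw [mul_left_comm, Finset.mul_sum]
        congr 1
        exact Finset.sum_congr rfl fun a _ => by ring
    simp_rw [h1]
    rw [Finset.sum_sub_distrib, Finset.sum_sub_distrib, ← Finset.mul_sum, ← Finset.mul_sum, E1 h c,
      Finset.sum_ite_eq' Finset.univ i, if_pos (Finset.mem_univ _), Finset.sum_comm]
    have h2 : ∀ a : Fin d, ∑ j : ZMod (d + 3), p i a * (lam j * (p j c * p j a))
        = if c = a then p i a * SS (d := d) g else 0 := by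
      intro a
      rw [← Finset.mul_sum, E2 h c a, mul_ite, mul_zero]
    simp_rw [h2]
    rw [Finset.sum_ite_eq, if_pos (Finset.mem_univ _)]
    ring
  have h01 : wdg (g 0) (g 1) ≠ 0 := by
    have hne : (0 : Fin (d + 3)) ≠ (1 : Fin (d + 3)) := by simp [Fin.ext_iff]
    exact wdg_ne (g := g) h.pos hne
  apply eq_zero_of_wdg h01
  · rw [wdg_comm, key 0, neg_zero]
  · rw [wdg_comm, key 1, neg_zero]

end Pool.Agent.Zk86.CycZ
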