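import Pool.Agent.Zk86.CycZ.Crit

/-! The extremal inequality at a critical configuration. -/

namespace Pool.Agent.Zk86.CycZ

open Finset Pool.Agent.K3h40.Cyc

variable {d : ℕ} {p : Fin (d + 3) → EE d} {g : ZMod (d + 3) → ℂ} {lam nu : ZMod (d + 3) → ℝ}

/-- the shift of the potential -/
noncomputable def gam (g : ZMod (d + 3) → ℂ) (lam : ZMod (d + 3) → ℝ) : ℂ :=
  (∑ j, (lam j : ℂ) * Gf (d := d) g j) / ((∑ j, lam j : ℝ) : ℂ)

/-- the centred potential -/
noncomputable def TT (g : ZMod (d + 3) → ℂ) (lam : ZMod (d + 3) → ℝ) (j : ZMod (d + 3)) : ℂ :=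
  Gf (d := d) g j - gam g lam

lemma sum_lam_T (hd : Even d) (hd0 : 0 < d) (h : Crit p g lam nu) :
    ∑ j, (lam j : ℂ) * TT g lam j = 0 := by
  have hs : (0 : ℝ) < ∑ j, lam j := Finset.sum_pos (fun k _ => lam_pos hd hd0 h k) Finset.univ_nonempty
  have hs' : ((∑ j, lam j : ℝ) : ℂ) ≠ 0 := by exact_mod_cast hs.ne'
  unfold TT
  simp_rw [mul_sub]
  rw [Finset.sum_sub_distrib, ← Finset.sum_mul, ← Complex.ofReal_sum]
  unfold gam
  rw [mul_div_cancel₀ _ hs', sub_self]

lemma sum_lam_T_p (h : Crit p g lam nu) (c : Fin d) :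
    ∑ j : ZMod (d + 3), ((lam j * p j c : ℝ) : ℂ) * TT g lam j = 0 := by
  unfold TT
  simp_rw [mul_sub]
  rw [Finset.sum_sub_distrib, Bzero h c, ← Finset.sum_mul, ← Complex.ofReal_sum, E1 h c]
  simp

lemma ker_re (hd : Even d) (hd0 : 0 < d) (h : Crit p g lam nu) :
    ∃ z : ℂ, ∀ i : ZMod (d + 3), lam i * (TT g lam i).re = wdg (g i) z := by
  refine ker_eq h.gale h.hD (fun i : Fin (d + 3) => lam i * (TT g lam i).re) fun j => ?_
  refine Fin.cases ?_ (fun c => ?_) j
  · have := congrArg Complex.re (sum_lam_T hd hd0 h)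
    rw [Complex.re_sum] at this
    simp only [Complex.re_ofReal_mul, Complex.zero_re] at this
    simp only [aug_zero, one_mul]
    exact this
  · have := congrArg Complex.re (sum_lam_T_p h c)
    rw [Complex.re_sum] at this
    simp only [Complex.re_ofReal_mul, Complex.zero_re] at this
    rw [← this]
    simp only [aug_succ]
    refine Finset.sum_congr rfl fun i _ => ?_
    ring

lemma ker_im (hd : Even d) (hd0 : 0 < d) (h : Crit p g lam nu) :
    ∃ z : ℂ, ∀ i : ZMod (d + 3), lam i * (TT g lam i).im = wdg (g i) z := by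
  refine ker_eq h.gale h.hD (fun i : Fin (d + 3) => lam i * (TT g lam i).im) fun j => ?_
  refine Fin.cases ?_ (fun c => ?_) j
  · have := congrArg Complex.im (sum_lam_T hd hd0 h)
    rw [Complex.im_sum] at this
    simp only [Complex.im_ofReal_mul, Complex.zero_im] at this
    simp only [aug_zero, one_mul]
    exact this
  · have := congrArg Complex.im (sum_lam_T_p h c)
    rw [Complex.im_sum] at this
    simp only [Complex.im_ofReal_mul, Complex.zero_im] at this
    rw [← this]
    simp only [aug_succ]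
    refine Finset.sum_congr rfl fun i _ => ?_
    ring

lemma T_diff (hd : Even d) (h : Crit p g lam nu) (k : ZMod (d + 3)) :
    TT g lam (k - 1) - TT g lam (k + 1) = g k := by
  have := Gf_rel hd g (sumg h) (k - 1)
  rw [show k - 1 + 1 = k by ring, show k - 1 + 2 = k + 1 by ring] at this
  unfold TT
  rw [this]; ring

/-- sums against the components -/
lemma T_sums (h : Crit p g lam nu) :
    ∑ j, (TT g lam j).re * (g j).re = 0 ∧ ∑ j, (TT g lam j).re * (g j).im = SS (d := d) g ∧
    ∑ j, (TT g lam j).im * (g j).re = - SS (d := d) g ∧ ∑ j, (TT g lam j).im * (g j).im = 0 := by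
  have hg := sumg h
  have hre : ∑ j, (g j).re = 0 := by rw [← Complex.re_sum, hg, Complex.zero_re]
  have him : ∑ j, (g j).im = 0 := by rw [← Complex.im_sum, hg, Complex.zero_im]
  have e : ∀ (a : ZMod (d + 3) → ℝ) (b : ZMod (d + 3) → ℝ) (c : ℝ), ∑ j, b j = 0 →
      ∑ j, (a j - c) * b j = ∑ j, a j * b j := by
    intro a b c hb
    simp_rw [sub_mul]
    rw [Finset.sum_sub_distrib, ← Finset.mul_sum, hb, mul_zero, sub_zero]
  unfold TT
  simp only [Complex.sub_re, Complex.sub_im, Gf_re, Gf_im]
  refine ⟨?_, ?_, ?_, ?_⟩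
  · rw [e _ _ _ hre, pt_self]
  · rw [e _ _ _ him, SS_pt g hg]
  · rw [e _ _ _ hre, SS_pt' g hg]
  · rw [e _ _ _ him, pt_self]

/-- the eigenvalue equation -/
lemma eig (hd : Even d) (hd0 : 0 < d) (h : Crit p g lam nu) :
    ∃ a b e : ℝ, 0 < -(a * a) - b * e ∧
      (∀ i, lam i * (TT g lam i).re = a * (g i).re + b * (g i).im) ∧
      (∀ i, lam i * (TT g lam i).im = e * (g i).re - a * (g i).im) := by
  obtain ⟨z1, h1⟩ := ker_re hd hd0 h
  obtain ⟨z2, h2⟩ := ker_im hd hd0 h
  set s := SS (d := d) g with hs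
  have hs0 : 0 < s := SS_pos hd hd0 h.pos
  obtain ⟨t1, t2, t3, t4⟩ := T_sums h
  set T := TT g lam with hT
  have h1' : ∀ i, lam i * (T i).re = z1.im * (g i).re + (-z1.re) * (g i).im := by
    intro i; rw [h1 i]; unfold wdg; ring
  have h2' : ∀ i, lam i * (T i).im = z2.im * (g i).re + (-z2.re) * (g i).im := by
    intro i; rw [h2 i]; unfold wdg; ring
  set a := z1.im with ha
  set b := -z1.re with hb
  set e := z2.im with he
  set f := -z2.re with hf
  have P : ∑ i, lam i * (T i).re * (T i).re = b * s := by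
    simp_rw [h1']
    have : ∀ i, (a * (g i).re + b * (g i).im) * (T i).re
        = a * ((T i).re * (g i).re) + b * ((T i).re * (g i).im) := fun i => by ring
    simp_rw [this]
    rw [Finset.sum_add_distrib, ← Finset.mul_sum, ← Finset.mul_sum, t1, t2]
    ring
  have Q : ∑ i, lam i * (T i).re * (T i).im = -(a * s) := by
    simp_rw [h1']
    have : ∀ i, (a * (g i).re + b * (g i).im) * (T i).im
        = a * ((T i).im * (g i).re) + b * ((T i).im * (g i).im) := fun i => by ring
    simp_rw [this]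
    rw [Finset.sum_add_distrib, ← Finset.mul_sum, ← Finset.mul_sum, t3, t4]
    ring
  have Q' : ∑ i, lam i * (T i).re * (T i).im = f * s := by
    have : ∀ i, lam i * (T i).re * (T i).im
        = e * ((T i).re * (g i).re) + f * ((T i).re * (g i).im) := fun i => by
      rw [show lam i * (T i).re * (T i).im = (lam i * (T i).im) * (T i).re by ring, h2']
      ring
    simp_rw [this]
    rw [Finset.sum_add_distrib, ← Finset.mul_sum, ← Finset.mul_sum, t1, t2]
    ring
  have V : ∑ i, lam i * (T i).im * (T i).im = -(e * s) := by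
    simp_rw [h2']
    have : ∀ i, (e * (g i).re + f * (g i).im) * (T i).im
        = e * ((T i).im * (g i).re) + f * ((T i).im * (g i).im) := fun i => by ring
    simp_rw [this]
    rw [Finset.sum_add_distrib, ← Finset.mul_sum, ← Finset.mul_sum, t3, t4]
    ring
  have hfa : f = -a := by
    rw [Q] at Q'
    have : (f + a) * s = 0 := by linarith
    rcases mul_eq_zero.1 this with h3 | h3
    · linarith
    · exact absurd h3 hs0.ne'
  refine ⟨a, b, e, ?_, h1', fun i => ?_⟩
  · -- Lagrange identity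
    have hlag : ∑ i, ∑ j, lam i * lam j * (wdg (T i) (T j)) ^ 2
        = 2 * ((b * s) * (-(e * s)) - (a * s) ^ 2) := by
      have e1 : ∀ i j, lam i * lam j * (wdg (T i) (T j)) ^ 2
          = (lam i * (T i).re * (T i).re) * (lam j * (T j).im * (T j).im)
            - 2 * ((lam i * (T i).re * (T i).im) * (lam j * (T j).re * (T j).im))
            + (lam i * (T i).im * (T i).im) * (lam j * (T j).re * (T j).re) := by
        intro i j; unfold wdg; ring
      simp_rw [e1, Finset.sum_add_distrib, Finset.sum_sub_distrib, ← Finset.mul_sum,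
        ← Finset.sum_mul]
      rw [P, Q, V]
      ring
    have hpos : 0 < ∑ i, ∑ j, lam i * lam j * (wdg (T i) (T j)) ^ 2 := by
      have hnn : ∀ i j, 0 ≤ lam i * lam j * (wdg (T i) (T j)) ^ 2 := fun i j =>
        mul_nonneg (mul_nonneg (lam_pos hd hd0 h i).le (lam_pos hd hd0 h j).le) (sq_nonneg _)
      refine lt_of_le_of_ne (Finset.sum_nonneg fun i _ => Finset.sum_nonneg fun j _ => hnn i j) ?_
      intro h0
      have hz : ∀ i j, wdg (T i) (T j) = 0 := by
        intro i j
        have h3 := (Finset.sum_eq_zero_iff_of_nonneg (fun i _ => Finset.sum_nonneg fun j _ => hnn i j)).1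
          h0.symm i (Finset.mem_univ _)
        have h4 := (Finset.sum_eq_zero_iff_of_nonneg (fun j _ => hnn i j)).1 h3 j (Finset.mem_univ _)
        have h5 : lam i * lam j ≠ 0 := (mul_pos (lam_pos hd hd0 h i) (lam_pos hd hd0 h j)).ne'
        rcases mul_eq_zero.1 h4 with h6 | h6
        · exact absurd h6 h5
        · exact pow_eq_zero_iff (two_ne_zero) |>.1 h6
      have h01 : wdg (g 0) (g 1) ≠ 0 := by
        have hne : (0 : Fin (d + 3)) ≠ (1 : Fin (d + 3)) := by simp
        exact wdg_ne (g := g) h.pos hne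
      apply h01
      rw [← T_diff hd h 0, ← T_diff hd h 1, wdg_sub_left, wdg_sub_right, wdg_sub_right]
      rw [← hT, hz, hz, hz, hz]
      ring
    rw [hlag] at hpos
    have h7 : (b * s) * (-(e * s)) - (a * s) ^ 2 = (-(a * a) - b * e) * (s * s) := by ring
    rw [h7] at hpos
    have h8 : 0 < s * s := mul_pos hs0 hs0
    by_contra hcon
    have := mul_nonpos_of_nonpos_of_nonneg (not_lt.1 hcon) h8.le
    linarith
  · rw [h2' i, hfa]; ring

/-- the three weighted sums of a complex sequence -/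
noncomputable def wA (lam : ZMod (d + 3) → ℝ) (h : ZMod (d + 3) → ℂ) : ℝ := ∑ i, (h i).re * (h i).re / lam i
/-- mixed sum -/
noncomputable def wB (lam : ZMod (d + 3) → ℝ) (h : ZMod (d + 3) → ℂ) : ℝ := ∑ i, (h i).re * (h i).im / lam i
/-- second sum -/
noncomputable def wC (lam : ZMod (d + 3) → ℝ) (h : ZMod (d + 3) → ℂ) : ℝ := ∑ i, (h i).im * (h i).im / lam i

/-- the inequality of real sequences which follows from the Wirtinger inequality -/
lemma real_ineq (hd : Even d) {Δ : ℝ} (hΔ : 0 < Δ) (hl : ∀ k, 0 < lam k)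
    (hW : ∀ X : ZMod (d + 3) → ℝ, ∑ k, lam k * X k = 0 → ∑ k, lam k * (X k * X k) ≤
      Δ * ∑ k, (X (k + 1) - X (k - 1)) * (X (k + 1) - X (k - 1)) / lam k)
    (x y : ZMod (d + 3) → ℝ) (hx : ∑ i, x i = 0) (hy : ∑ i, y i = 0) :
    (∑ j, pt x j * y j) ^ 2 ≤ Δ * ((∑ i, x i * x i / lam i) * ∑ i, y i * y i / lam i) := by
  have hs : (0 : ℝ) < ∑ j, lam j := Finset.sum_pos (fun k _ => hl k) Finset.univ_nonempty
  set c := (∑ j, lam j * pt y j) / ∑ j, lam j with hc
  set Y : ZMod (d + 3) → ℝ := fun j => pt y j - c with hY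
  have hY0 : ∑ k, lam k * Y k = 0 := by
    simp only [hY, mul_sub]
    rw [Finset.sum_sub_distrib, ← Finset.sum_mul, hc]
    field_simp
    ring
  have h1 := hW Y hY0
  have h2 : ∑ k, (Y (k + 1) - Y (k - 1)) * (Y (k + 1) - Y (k - 1)) / lam k = ∑ i, y i * y i / lam i := by
    refine Finset.sum_congr rfl fun k _ => ?_
    have := pt_rel hd y hy (k - 1)
    rw [show k - 1 + 1 = k by ring, show k - 1 + 2 = k + 1 by ring] at this
    have e : Y (k + 1) - Y (k - 1) = - y k := by
      simp only [hY]; rw [this]; ring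
    rw [e]; ring
  rw [h2] at h1
  have h3 : ∑ j, pt x j * y j = - ∑ j, Y j * x j := by
    rw [pt_anti]
    simp only [hY, sub_mul]
    rw [Finset.sum_sub_distrib, ← Finset.mul_sum, hx, mul_zero, sub_zero]
  rw [h3, neg_sq]
  have h4 : (∑ j, Y j * x j) ^ 2 ≤ (∑ j, lam j * (Y j * Y j)) * ∑ i, x i * x i / lam i := by
    have h5 := Finset.sum_mul_sq_le_sq_mul_sq Finset.univ (fun j => Real.sqrt (lam j) * Y j)
      (fun j => x j / Real.sqrt (lam j))
    have e1 : ∀ j, Real.sqrt (lam j) * Y j * (x j / Real.sqrt (lam j)) = Y j * x j := by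
      intro j
      have := (Real.sqrt_pos.2 (hl j)).ne'
      field_simp
    have e2 : ∀ j, (Real.sqrt (lam j) * Y j) ^ 2 = lam j * (Y j * Y j) := by
      intro j
      rw [mul_pow, Real.sq_sqrt (hl j).le]; ring
    have e3 : ∀ j, (x j / Real.sqrt (lam j)) ^ 2 = x j * x j / lam j := by
      intro j
      rw [div_pow, Real.sq_sqrt (hl j).le]; ring
    simp_rw [e1, e2, e3] at h5
    exact h5
  have h6 : 0 ≤ ∑ i, x i * x i / lam i := Finset.sum_nonneg fun i _ =>
    div_nonneg (mul_self_nonneg _) (hl i).le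
  calc (∑ j, Y j * x j) ^ 2 ≤ (∑ j, lam j * (Y j * Y j)) * ∑ i, x i * x i / lam i := h4
    _ ≤ (Δ * ∑ i, y i * y i / lam i) * ∑ i, x i * x i / lam i := mul_le_mul_of_nonneg_right h1 h6
    _ = _ := by ring

/-- extremality of the dual of a critical configuration -/
theorem extremal (hd : Even d) (hd0 : 0 < d) (h : Crit p g lam nu) :
    ∃ Δ : ℝ, 0 < Δ ∧ (∀ k : ZMod (d + 3) → ℂ, ∑ i, k i = 0 →
        SS (d := d) k ^ 2 ≤ Δ * (wA lam k * wC lam k - wB lam k ^ 2)) ∧
      SS (d := d) g ^ 2 = Δ * (wA lam g * wC lam g - wB lam g ^ 2) := by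
  obtain ⟨a, b, e, hΔ, h1, h2⟩ := eig hd hd0 h
  set Δ := -(a * a) - b * e with hΔdef
  have hl := lam_pos hd hd0 h
  obtain ⟨t1, t2, t3, t4⟩ := T_sums h
  have hdiff := T_diff hd h
  set T := TT g lam with hT
  set s := SS (d := d) g with hs
  -- solve for g
  have g1 : ∀ i, (g i).re / lam i = -(a * (T i).re + b * (T i).im) / Δ := by
    intro i
    rw [div_eq_div_iff (hl i).ne' hΔ.ne']
    have e1 := h1 i
    have e2 := h2 i
    rw [hΔdef]
    linear_combination a * e1 + b * e2
  have g2 : ∀ i, (g i).im / lam i = -(e * (T i).re - a * (T i).im) / Δ := by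
    intro i
    rw [div_eq_div_iff (hl i).ne' hΔ.ne']
    have e1 := h1 i
    have e2 := h2 i
    rw [hΔdef]
    linear_combination e * e1 - a * e2
  have dre : ∀ k, (T (k - 1)).re - (T (k + 1)).re = (g k).re := fun k => by
    rw [← Complex.sub_re, hdiff]
  have dim : ∀ k, (T (k - 1)).im - (T (k + 1)).im = (g k).im := fun k => by
    rw [← Complex.sub_im, hdiff]
  have nre : Nul lam Δ fun k => (T k).re := by
    intro k
    have d1 := dre (k - 1)
    have d2 := dre (k + 1)
    rw [show k - 1 - 1 = k - 2 by ring, show k - 1 + 1 = k by ring] at d1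
    rw [show k + 1 - 1 = k by ring, show k + 1 + 1 = k + 2 by ring] at d2
    simp only
    rw [show (T k).re - (T (k - 2)).re = -(g (k - 1)).re by linarith, d2, neg_div, g1, g1]
    have d3 := dre k
    have d4 := dim k
    have e1 := h1 k
    have e3 : lam k / Δ * (T k).re = (lam k * (T k).re) / Δ := by ring
    rw [e3, e1, ← d3, ← d4]
    ring
  have nim : Nul lam Δ fun k => (T k).im := by
    intro k
    have d1 := dim (k - 1)
    have d2 := dim (k + 1)
    rw [show k - 1 - 1 = k - 2 by ring, show k - 1 + 1 = k by ring] at d1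
    rw [show k + 1 - 1 = k by ring, show k + 1 + 1 = k + 2 by ring] at d2
    simp only
    rw [show (T k).im - (T (k - 2)).im = -(g (k - 1)).im by linarith, d2, neg_div, g2, g2]
    have d3 := dre k
    have d4 := dim k
    have e1 := h2 k
    have e3 : lam k / Δ * (T k).im = (lam k * (T k).im) / Δ := by ring
    rw [e3, e1, ← d3, ← d4]
    ring
  -- signs
  have hw : ∀ i j, lam i * lam j * wdg (T i) (T j) = Δ * wdg (g i) (g j) := by
    intro i j
    have e1 : lam i * lam j * wdg (T i) (T j) = (lam i * (T i).re) * (lam j * (T j).im)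
        - (lam i * (T i).im) * (lam j * (T j).re) := by unfold wdg; ring
    rw [e1, h1, h1, h2, h2, hΔdef]
    unfold wdg
    ring
  have hw' : ∀ i j, wdg (T i) (T j) = Δ / (lam i * lam j) * wdg (g i) (g j) := by
    intro i j
    have := hw i j
    have h3 := (mul_pos (hl i) (hl j)).ne'
    rw [div_mul_eq_mul_div, eq_div_iff h3, ← this]
    ring
  have hc : ∀ i j, 0 < Δ / (lam i * lam j) := fun i j => div_pos hΔ (mul_pos (hl i) (hl j))
  have hne : ∀ k, k ≠ 0 → wdg (T 0) (T k) ≠ 0 := by
    intro k hk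
    rw [hw']
    refine mul_ne_zero (hc _ _).ne' ?_
    exact wdg_ne (g := g) h.pos (fun h' => hk h'.symm)
  have hsg : ∀ k : ZMod (d + 3), k ≠ 0 → 0 < (-1 : ℝ) ^ k.val * wdg (g 0) (g k) := by
    intro k hk
    have hlt : @LT.lt (Fin (d + 3)) _ 0 k := Fin.pos_iff_ne_zero.2 hk
    have h3 := h.pos 0 k hlt
    unfold ee at h3
    rw [wdg_real_mul_left, wdg_real_mul_right] at h3
    simp only [Fin.val_zero, pow_zero, one_mul] at h3
    exact h3
  have hpos : ∀ k, k ≠ 0 → k ≠ 1 → k ≠ -1 → 0 < wdg (T 0) (T (k + 1)) * wdg (T 0) (T (k - 1)) := by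
    intro k hk0 hk1 hk2
    have hp : k + 1 ≠ 0 := fun h' => hk2 (by linear_combination h')
    have hm : k - 1 ≠ 0 := fun h' => hk1 (by linear_combination h')
    have s1 := hsg _ hp
    have s2 := hsg _ hm
    rw [hw', hw']
    have hv1 := val_succ_cases (k - 1)
    have hv2 := val_succ_cases k
    rw [show k - 1 + 1 = k by ring] at hv1
    have hkv : k.val ≠ 0 := fun h' => hk0 ((ZMod.val_eq_zero k).1 h')
    have hkv' : (k + 1).val ≠ 0 := fun h' => hp ((ZMod.val_eq_zero _).1 h')
    have hpar : (k + 1).val = (k - 1).val + 2 := by omega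
    rw [hpar, pow_add] at s1
    have h3 := mul_pos s1 s2
    have h4 : (-1 : ℝ) ^ (k - 1).val * (-1) ^ (k - 1).val = 1 := neg_one_pow_sq _
    have h5 : (-1 : ℝ) ^ (k - 1).val * (-1) ^ 2 * wdg (g 0) (g (k + 1)) *
        ((-1) ^ (k - 1).val * wdg (g 0) (g (k - 1)))
        = ((-1 : ℝ) ^ (k - 1).val * (-1) ^ (k - 1).val) * (wdg (g 0) (g (k + 1)) * wdg (g 0) (g (k - 1))) := by
      ring
    rw [h5, h4, one_mul] at h3
    have h6 := mul_pos (mul_pos (hc 0 (k + 1)) (hc 0 (k - 1))) h3
    have h7 : Δ / (lam 0 * lam (k + 1)) * wdg (g 0) (g (k + 1)) * (Δ / (lam 0 * lam (k - 1)) * wdg (g 0) (g (k - 1)))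
        = Δ / (lam 0 * lam (k + 1)) * (Δ / (lam 0 * lam (k - 1))) * (wdg (g 0) (g (k + 1)) * wdg (g 0) (g (k - 1))) := by
      ring
    rw [h7]
    exact h6
  have hW := fun X hX => wirtinger hl hΔ nre nim hne hpos X hX
  have hR := real_ineq hd hΔ hl hW
  refine ⟨Δ, hΔ, fun k hk => ?_, ?_⟩
  · have hkre : ∑ i, (k i).re = 0 := by rw [← Complex.re_sum, hk, Complex.zero_re]
    have hkim : ∑ i, (k i).im = 0 := by rw [← Complex.im_sum, hk, Complex.zero_im]
    rw [SS_pt k hk]
    have hA0 : 0 ≤ wA lam k := Finset.sum_nonneg fun i _ => div_nonneg (mul_self_nonneg _) (hl i).le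
    rcases hA0.eq_or_lt with hA | hA
    · have hz : ∀ i, (k i).re = 0 := by
        intro i
        have h3 := (Finset.sum_eq_zero_iff_of_nonneg (fun i _ => div_nonneg (mul_self_nonneg ((k i).re))
          (hl i).le)).1 hA.symm i (Finset.mem_univ i)
        rcases div_eq_zero_iff.1 h3 with h4 | h4
        · exact mul_self_eq_zero.1 h4
        · exact absurd h4 (hl i).ne'
      have e1 : ∑ j, pt (fun i => (k i).re) j * (k j).im = 0 := by
        rw [pt_anti]
        simp [hz]
      have e2 : wB lam k = 0 := by unfold wB; simp [hz]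
      rw [e1, ← hA, e2]
      simp
    · set τ := wB lam k / wA lam k with hτ
      have h3 := hR (fun i => (k i).re) (fun i => (k i).im - τ * (k i).re) hkre (by
        rw [Finset.sum_sub_distrib, ← Finset.mul_sum, hkim, hkre]; ring)
      have e1 : ∑ j, pt (fun i => (k i).re) j * ((k j).im - τ * (k j).re)
          = ∑ j, pt (fun i => (k i).re) j * (k j).im := by
        have : ∀ j, pt (fun i => (k i).re) j * ((k j).im - τ * (k j).re)
            = pt (fun i => (k i).re) j * (k j).im - τ * (pt (fun i => (k i).re) j * (k j).re) := by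
          intro j; ring
        simp_rw [this]
        rw [Finset.sum_sub_distrib, ← Finset.mul_sum, pt_self]
        ring
      have e2 : ∑ i, ((k i).im - τ * (k i).re) * ((k i).im - τ * (k i).re) / lam i
          = wC lam k - 2 * τ * wB lam k + τ ^ 2 * wA lam k := by
        unfold wA wB wC
        rw [Finset.mul_sum, Finset.mul_sum, ← Finset.sum_sub_distrib, ← Finset.sum_add_distrib]
        exact Finset.sum_congr rfl fun i _ => by ring
      rw [e1, e2] at h3
      refine h3.trans (le_of_eq ?_)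
      have e3 : ∑ i, (k i).re * (k i).re / lam i = wA lam k := rfl
      rw [e3, hτ]
      field_simp
      ring
  · have A1 : wA lam g = b * s / Δ := by
      unfold wA
      have : ∀ i, (g i).re * (g i).re / lam i
          = -(a * ((T i).re * (g i).re) + b * ((T i).im * (g i).re)) / Δ := by
        intro i
        rw [mul_div_assoc, g1]; ring
      simp_rw [this]
      rw [← Finset.sum_div, Finset.sum_neg_distrib, Finset.sum_add_distrib, ← Finset.mul_sum,
        ← Finset.mul_sum, t1, t3]
      ring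
    have B1 : wB lam g = - (a * s) / Δ := by
      unfold wB
      have : ∀ i, (g i).re * (g i).im / lam i
          = -(a * ((T i).re * (g i).im) + b * ((T i).im * (g i).im)) / Δ := by
        intro i
        rw [mul_comm, mul_div_assoc, g1]; ring
      simp_rw [this]
      rw [← Finset.sum_div, Finset.sum_neg_distrib, Finset.sum_add_distrib, ← Finset.mul_sum,
        ← Finset.mul_sum, t2, t4]
      ring
    have C1 : wC lam g = - (e * s) / Δ := by
      unfold wC
      have : ∀ i, (g i).im * (g i).im / lam i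
          = -(e * ((T i).re * (g i).im) - a * ((T i).im * (g i).im)) / Δ := by
        intro i
        rw [mul_div_assoc, g2]; ring
      simp_rw [this]
      rw [← Finset.sum_div, Finset.sum_neg_distrib, Finset.sum_sub_distrib, ← Finset.mul_sum,
        ← Finset.mul_sum, t2, t4]
      ring
    rw [A1, B1, C1]
    have e1 : Δ * (b * s / Δ * (-(e * s) / Δ) - (-(a * s) / Δ) ^ 2)
        = s ^ 2 * ((-(a * a) - b * e) / Δ) := by
      field_simp
      ring
    rw [e1, ← hΔdef, div_self hΔ.ne', mul_one]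

end Pool.Agent.Zk86.CycZ
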