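import Pool.Agent.Zk86.CycZ.Pert

/-! Local maxima in the single vertices. -/

namespace Pool.Agent.Zk86.CycZ

open Finset Pool.Agent.K3h40.Cyc Filter Topology MeasureTheory

variable {d : ℕ}

/-- a linear functional with a local maximum on the unit sphere at `y` is a multiple of `y` -/
lemma sphere_max {y : EE d} (hy : ‖y‖ = 1) (w : Fin d → ℝ)
    (h : ∀ᶠ x in 𝓝 y, ‖x‖ = 1 → ∑ c, x c * w c ≤ ∑ c, y c * w c) (c : Fin d) :
    w c = (∑ a, y a * w a) * y c := by
  set W : EE d := WithLp.toLp 2 w with hW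
  have hin : ∀ x : EE d, ∑ c, x c * w c = inner ℝ x W := by
    intro x
    rw [inner_eq_sum]
  simp_rw [hin] at h ⊢
  set A : ℝ := inner ℝ y W with hA
  have hyy : inner ℝ y y = (1 : ℝ) := by
    rw [real_inner_self_eq_norm_sq, hy]; norm_num
  set v : EE d := W - A • y with hv
  have hyv : inner ℝ y v = (0 : ℝ) := by
    rw [hv, inner_sub_right, inner_smul_right, hyy, ← hA]; ring
  have hv0 : v = 0 := by
    by_contra hne
    have hvn : 0 < ‖v‖ := norm_pos_iff.2 hne
    set u : EE d := (‖v‖)⁻¹ • v with hu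
    have huu : ‖u‖ = 1 := by
      rw [hu, norm_smul, norm_inv, norm_norm, inv_mul_cancel₀ hvn.ne']
    have hyu : inner ℝ y u = (0 : ℝ) := by
      rw [hu, inner_smul_right, hyv, mul_zero]
    set B : ℝ := inner ℝ u W with hB
    set f : ℝ → ℝ := fun t => Real.cos t * A + Real.sin t * B with hf
    have hpath : ∀ t : ℝ, ‖Real.cos t • y + Real.sin t • u‖ = 1 := by
      intro t
      have h1 : ‖Real.cos t • y + Real.sin t • u‖ ^ 2 = 1 := by
        rw [norm_add_sq_real, norm_smul, norm_smul, inner_smul_left, inner_smul_right, hyu, hy, huu]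
        simp only [mul_zero, mul_one, Real.norm_eq_abs, sq_abs]
        have := Real.sin_sq_add_cos_sq t
        linarith
      have h2 : 0 ≤ ‖Real.cos t • y + Real.sin t • u‖ := norm_nonneg _
      nlinarith
    have hcont : Continuous fun t : ℝ => Real.cos t • y + Real.sin t • u := by fun_prop
    have hlim : Tendsto (fun t : ℝ => Real.cos t • y + Real.sin t • u) (𝓝 0) (𝓝 y) := by
      have := hcont.tendsto 0
      simpa using this
    have hmax : IsLocalMax f 0 := by
      filter_upwards [hlim.eventually h] with t ht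
      have h1 := ht (hpath t)
      rw [inner_add_left, inner_smul_left, inner_smul_left] at h1
      simp only [hf, Real.cos_zero, Real.sin_zero]
      simpa using h1
    have hder : HasDerivAt f (-Real.sin 0 * A + Real.cos 0 * B) 0 :=
      ((Real.hasDerivAt_cos 0).mul_const A).add ((Real.hasDerivAt_sin 0).mul_const B)
    have h0 := hmax.hasDerivAt_eq_zero hder
    simp only [Real.sin_zero, Real.cos_zero, neg_zero, zero_mul, one_mul, zero_add] at h0
    have h3 : B = (‖v‖)⁻¹ * ‖v‖ ^ 2 := by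
      rw [hB, hu, real_inner_smul_left]
      have h4 : W = v + A • y := by rw [hv]; abel
      have h7 : inner ℝ v y = (0 : ℝ) := by rw [real_inner_comm]; exact hyv
      have h8 : inner ℝ v W = ‖v‖ ^ 2 := by
        have h9 : inner ℝ v W = inner ℝ v (v + A • y) := congrArg (fun z => inner ℝ v z) h4
        rw [h9, inner_add_right, inner_smul_right, h7, real_inner_self_eq_norm_sq]
        ring
      rw [h8]
    rw [h0] at h3
    have : 0 < (‖v‖)⁻¹ * ‖v‖ ^ 2 := by positivity
    linarith
  have h5 : W = A • y := sub_eq_zero.1 hv0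
  have h6 : W c = (A • y) c := by rw [h5]
  rw [PiLp.smul_apply, smul_eq_mul] at h6
  exact h6

/-- extreme points of an inscribed polytope -/
lemma ext_hull {n : ℕ} (p : Fin n → EE d) (hn : ∀ i, ‖p i‖ = 1) :
    Set.extremePoints ℝ (convexHull ℝ (Set.range p)) = Set.range p := by
  apply Set.Subset.antisymm extremePoints_convexHull_subset
  rintro _ ⟨i, rfl⟩
  have hsub : convexHull ℝ (Set.range p) ⊆ Metric.closedBall 0 1 := by
    refine convexHull_min ?_ (convex_closedBall 0 1)
    rintro _ ⟨j, rfl⟩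
    simp [hn j]
  refine inter_extremePoints_subset_extremePoints_of_subset hsub ⟨subset_convexHull ℝ _ ⟨i, rfl⟩, ?_⟩
  rcases subsingleton_or_nontrivial (EE d) with hss | hnt
  · have := hn i
    rw [Subsingleton.elim (p i) 0, norm_zero] at this
    exact absurd this zero_ne_one
  · rw [StrictConvexSpace.extremePoints_closedBall_eq_sphere]
    simp [hn i]

lemma insert_range {n : ℕ} (p : Fin n → EE d) (hp : Function.Injective p) (i : Fin n) (x : EE d) :
    insert x (Set.range p \ {p i}) = Set.range (Function.update p i x) := by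
  ext y
  constructor
  · rintro (rfl | ⟨⟨j, rfl⟩, hj⟩)
    · exact ⟨i, Function.update_self _ _ _⟩
    · have hji : j ≠ i := fun h => hj (by rw [h]; rfl)
      exact ⟨j, Function.update_of_ne hji _ _⟩
  · rintro ⟨j, rfl⟩
    by_cases hji : j = i
    · rw [hji, Function.update_self]
      exact Or.inl rfl
    · rw [Function.update_of_ne hji]
      exact Or.inr ⟨⟨j, rfl⟩, fun h => hji (hp h)⟩

lemma vol_fin {n : ℕ} (p : Fin n → EE d) : volume (convexHull ℝ (Set.range p)) ≠ ⊤ :=
  ((Set.finite_range p).isCompact_convexHull ℝ).measure_lt_top.ne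

/-- the upper bound of the base, for positive Gale duals -/
lemma bound_of_pos (hd : Even d) (hd0 : 0 < d) {q : Fin (d + 3) → EE d} {g : Fin (d + 3) → ℂ}
    (hg : Gale q g) (hD : (gram q).det ≠ 0) (hpos : Pos g) (hn : ∀ i, ‖q i‖ = 1) :
    volume.real (convexHull ℝ (Set.range q)) ≤ volume.real (convexHull ℝ (Set.range (cyc d))) := by
  have hvol := vol_eq hd hd0 hg hD hpos
  have hs := sn_pos (d := d)
  have hcv : 0 < cv d := vol_ev_pos d
  have hg2 := sum_norm_gale hg
  obtain ⟨hS1, hS2⟩ := SS_le hd (fun i : ZMod (d + 3) => g i) hg.sum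
  have hg2' : ∑ j : ZMod (d + 3), ‖g j‖ ^ 2 = 2 := hg2
  rw [hg2'] at hS1
  have hSS : SS (d := d) g ≤ 1 / (2 * sn d) := by
    rw [le_div_iff₀ (by positivity)]
    have : SS (d := d) g = SS (fun i : ZMod (d + 3) => g i) := rfl
    rw [this]
    linarith
  obtain ⟨hd1, -⟩ := gram_det_le hd0 q hn
  have hsqrt : Real.sqrt (gram q).det ≤ Real.sqrt (dstar d) := Real.sqrt_le_sqrt hd1
  have h1s : (0 : ℝ) < 1 / (2 * sn d) := by positivity
  rw [hvol, vol_cyc hd hd0]
  calc cv d * Real.sqrt (gram q).det * SS (d := d) g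
      ≤ cv d * Real.sqrt (gram q).det * (1 / (2 * sn d)) :=
        mul_le_mul_of_nonneg_left hSS (by positivity)
    _ ≤ cv d * Real.sqrt (dstar d) * (1 / (2 * sn d)) := by
        apply mul_le_mul_of_nonneg_right _ h1s.le
        exact mul_le_mul_of_nonneg_left hsqrt hcv.le

/-- sorted enumeration of the vertices with a positive Gale dual -/
lemma sorted (hd : Even d) (p : Fin (d + 3) → EE d) (hp : Function.Injective p)
    (hn : ∀ i, ‖p i‖ = 1) (hsp : affineSpan ℝ (Set.range p) = ⊤) (hc : IsCyc p) :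
    ∃ (q : Fin (d + 3) → EE d) (g : Fin (d + 3) → ℂ), Function.Injective q ∧ (∀ i, ‖q i‖ = 1) ∧
      Set.range q = Set.range p ∧ Gale q g ∧ (gram q).det ≠ 0 ∧ Pos g := by
  obtain ⟨σ, hA⟩ := exists_sorted hd hc
  obtain ⟨g, hg, hpos⟩ := exists_pos hd hA
  have hrange : Set.range (fun i => p (σ i)) = Set.range p := σ.surjective.range_comp p
  exact ⟨fun i => p (σ i), g, hp.comp σ.injective, fun i => hn (σ i), hrange, hg,
    gram_ne_of_span (by rw [hrange, hsp]), hpos⟩

/-- local maximality in every vertex -/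
def LocMax (q : Fin (d + 3) → EE d) : Prop :=
  ∀ i, ∀ᶠ x in 𝓝 (q i), ‖x‖ = 1 →
    volume.real (convexHull ℝ (Set.range (Function.update q i x))) ≤
      volume.real (convexHull ℝ (Set.range q))

/-- local maximality implies criticality -/
lemma crit_of_locMax (hd : Even d) (hd0 : 0 < d) {q : Fin (d + 3) → EE d} {g : ZMod (d + 3) → ℂ}
    (hg : Gale q g) (hD : (gram q).det ≠ 0) (hpos : Pos (d := d) g) (hn : ∀ i, ‖q i‖ = 1)
    (hL : LocMax q) : ∃ lam nu, Crit q g lam nu := by
  choose nu w hw using fun i : ZMod (d + 3) => star_exists hg hD i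
  have hcv : 0 < cv d := vol_ev_pos d
  obtain ⟨ε, -, -⟩ := exists_enum (d := d) 0 1 (by simp)
  have hD0 : 0 < (gram q).det := lt_of_le_of_ne (gram_det_nonneg (g := g) hg ε) (Ne.symm hD)
  have hsD := Real.sqrt_pos.2 hD0
  have key : ∀ (i : ZMod (d + 3)) (c : Fin d), w i c = (∑ a, q i a * w i a) * q i c := by
    intro i
    refine sphere_max (hn i) (w i) ?_
    have h1 := pert hd hg hD hpos i (hw i)
    filter_upwards [h1, hL i] with x hx hx2 hx3
    obtain ⟨k, hk, hkpos, hkD, hkeq⟩ := hx
    have h2 := hx2 hx3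
    rw [vol_eq hd hd0 hk hkD hkpos, vol_eq (g := g) hd hd0 hg hD hpos, mul_assoc, mul_assoc] at h2
    have h3 := le_of_mul_le_mul_left h2 hcv
    rw [hkeq] at h3
    have h4 := le_of_mul_le_mul_left h3 hsD
    have h5 := hw i i
    rw [if_pos rfl] at h5
    have h6 : ∑ c, x c * w i c ≤ ∑ c, q i c * w i c := by
      have h4' : nu i + ∑ c, x c * w i c + wdg (Gf (d := d) g i) (g i) ≤ SS (d := d) g := h4
      linarith
    exact h6
  refine ⟨fun i => ∑ a, q i a * w i a, nu, ⟨hg, hD, hpos, hn, fun i j => ?_⟩⟩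
  rw [hw i j, Finset.mul_sum]
  congr 1
  refine Finset.sum_congr rfl fun c _ => ?_
  rw [key i c]
  ring

/-- a locally maximal inscribed cyclic polytope has the volume of the regular one -/
theorem vol_of_locMax (hd : Even d) (hd0 : 0 < d) {q : Fin (d + 3) → EE d} {g : ZMod (d + 3) → ℂ}
    (hg : Gale q g) (hD : (gram q).det ≠ 0) (hpos : Pos (d := d) g) (hn : ∀ i, ‖q i‖ = 1)
    (hL : LocMax q) :
    volume.real (convexHull ℝ (Set.range q)) = volume.real (convexHull ℝ (Set.range (cyc d))) := by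
  apply le_antisymm (bound_of_pos (g := g) hd hd0 hg hD hpos hn)
  obtain ⟨lam, nu, hC⟩ := crit_of_locMax hd hd0 hg hD hpos hn hL
  have hDc : (gram (cyc d)).det ≠ 0 := by
    rw [gram_cyc_det hd hd0]; exact (dstar_pos hd0).ne'
  have h1 := compare hd hd0 hC (gale_cyc hd hd0) hDc (pos_cyc hd hd0) (norm_cyc hd hd0)
  rw [vol_eq hd hd0 (gale_cyc hd hd0) hDc (pos_cyc hd hd0), vol_eq (g := g) hd hd0 hg hD hpos,
    mul_assoc, mul_assoc]
  exact mul_le_mul_of_nonneg_left h1 (vol_ev_pos d).le

end Pool.Agent.Zk86.CycZ
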