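import Pool.Agent.Zk86.CycZ.Cmp

/-! Moving one vertex. -/

namespace Pool.Agent.Zk86.CycZ

open Finset Pool.Agent.K3h40.Cyc Filter Topology
open scoped Matrix

variable {d : ℕ}

lemma SS_scale (h k : Fin (d + 3) → ℂ) (δ : ℝ) (hw : ∀ a b, wdg (k a) (k b) = δ * wdg (h a) (h b)) :
    SS (d := d) k = δ * SS (d := d) h := by
  unfold SS
  rw [mul_neg, Finset.mul_sum]
  congr 1
  refine Finset.sum_congr rfl fun i _ => ?_
  rw [Finset.mul_sum]
  refine Finset.sum_congr rfl fun j _ => ?_
  rw [mul_ite, mul_zero]
  congr 1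
  exact hw i j

lemma pos_scale {h k : Fin (d + 3) → ℂ} {δ : ℝ} (hδ : 0 < δ)
    (hw : ∀ a b, wdg (k a) (k b) = δ * wdg (h a) (h b)) (hp : Pos h) : Pos k := by
  intro a b hab
  have h1 := hp a b hab
  unfold ee at *
  rw [wdg_real_mul_left, wdg_real_mul_right] at *
  rw [hw]
  have : (-1 : ℝ) ^ a.val * ((-1) ^ b.val * (δ * wdg (h a) (h b)))
      = δ * ((-1) ^ a.val * ((-1) ^ b.val * wdg (h a) (h b))) := by ring
  rw [this]
  exact mul_pos hδ h1

/-- orthonormalisation of a Gale dual -/
lemma orthonormalise {q : Fin (d + 3) → EE d} {h : Fin (d + 3) → ℂ}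
    (hs : ∀ c : Fin (d + 1), ∑ j, (aug q j c : ℂ) * h j = 0) {u v : Fin (d + 3)}
    (huv : wdg (h u) (h v) ≠ 0) :
    ∃ (k : Fin (d + 3) → ℂ) (δ : ℝ), 0 < δ ∧ Gale q k ∧
      ∀ a b, wdg (k a) (k b) = δ * wdg (h a) (h b) := by
  set N1 : ℝ := ∑ i, (h i).re * (h i).re with hN1
  have hN1pos : 0 < N1 := by
    refine lt_of_le_of_ne (Finset.sum_nonneg fun i _ => mul_self_nonneg _) fun h0 => huv ?_
    have hz : ∀ i, (h i).re = 0 := fun i => mul_self_eq_zero.1
      ((Finset.sum_eq_zero_iff_of_nonneg (fun i _ => mul_self_nonneg _)).1 h0.symm i (Finset.mem_univ i))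
    unfold wdg
    rw [hz, hz]; ring
  set τ : ℝ := (∑ i, (h i).re * (h i).im) / N1 with hτ
  set y : Fin (d + 3) → ℝ := fun i => (h i).im - τ * (h i).re with hy
  set N2 : ℝ := ∑ i, y i * y i with hN2
  have hN2pos : 0 < N2 := by
    refine lt_of_le_of_ne (Finset.sum_nonneg fun i _ => mul_self_nonneg _) fun h0 => huv ?_
    have hz : ∀ i, y i = 0 := fun i => mul_self_eq_zero.1
      ((Finset.sum_eq_zero_iff_of_nonneg (fun i _ => mul_self_nonneg _)).1 h0.symm i (Finset.mem_univ i))
    have e : ∀ i, (h i).im = τ * (h i).re := fun i => by have := hz i; simp only [hy] at this; linarith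
    unfold wdg
    rw [e, e]; ring
  have s1 := Real.sqrt_pos.2 hN1pos
  have s2 := Real.sqrt_pos.2 hN2pos
  have q1 := Real.mul_self_sqrt hN1pos.le
  have q2 := Real.mul_self_sqrt hN2pos.le
  have hxy : ∑ i, (h i).re * y i = 0 := by
    have : ∀ i, (h i).re * y i = (h i).re * (h i).im - τ * ((h i).re * (h i).re) := fun i => by
      simp only [hy]; ring
    simp_rw [this]
    rw [Finset.sum_sub_distrib, ← Finset.mul_sum, ← hN1, hτ, div_mul_cancel₀ _ hN1pos.ne', sub_self]
  have hre : ∀ c : Fin (d + 1), ∑ j, aug q j c * (h j).re = 0 := by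
    intro c
    have := congrArg Complex.re (hs c)
    rw [Complex.re_sum] at this
    simpa using this
  have him : ∀ c : Fin (d + 1), ∑ j, aug q j c * (h j).im = 0 := by
    intro c
    have := congrArg Complex.im (hs c)
    rw [Complex.im_sum] at this
    simpa using this
  have hyy : ∀ c : Fin (d + 1), ∑ j, aug q j c * y j = 0 := by
    intro c
    have : ∀ j, aug q j c * y j = aug q j c * (h j).im - τ * (aug q j c * (h j).re) := fun j => by
      simp only [hy]; ring
    simp_rw [this]
    rw [Finset.sum_sub_distrib, ← Finset.mul_sum, him, hre]; ring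
  refine ⟨fun i => ⟨(h i).re / Real.sqrt N1, y i / Real.sqrt N2⟩, 1 / (Real.sqrt N1 * Real.sqrt N2),
    by positivity, ⟨fun c => ?_, ?_, ?_, ?_⟩, fun a b => ?_⟩
  · apply Complex.ext
    · rw [Complex.re_sum]
      simp only [Complex.mul_re, Complex.ofReal_re, Complex.ofReal_im, zero_mul, sub_zero,
        Complex.zero_re]
      simp_rw [← mul_div_assoc]
      rw [← Finset.sum_div, hre, zero_div]
    · rw [Complex.im_sum]
      simp only [Complex.mul_im, Complex.ofReal_re, Complex.ofReal_im, zero_mul, add_zero,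
        Complex.zero_im]
      simp_rw [← mul_div_assoc]
      rw [← Finset.sum_div, hyy, zero_div]
  · simp only
    have : ∀ i, (h i).re / Real.sqrt N1 * ((h i).re / Real.sqrt N1) = (h i).re * (h i).re / N1 := by
      intro i; rw [div_mul_div_comm, q1]
    simp_rw [this]
    rw [← Finset.sum_div, ← hN1, div_self hN1pos.ne']
  · simp only
    have : ∀ i, y i / Real.sqrt N2 * (y i / Real.sqrt N2) = y i * y i / N2 := by
      intro i; rw [div_mul_div_comm, q2]
    simp_rw [this]
    rw [← Finset.sum_div, ← hN2, div_self hN2pos.ne']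
  · simp only
    simp_rw [div_mul_div_comm]
    rw [← Finset.sum_div, hxy, zero_div]
  · unfold wdg
    simp only [hy]
    field_simp
    ring

/-- the affine form attached to an index -/
lemma star_exists {p : Fin (d + 3) → EE d} {g : ZMod (d + 3) → ℂ} (hg : Gale p g)
    (hD : (gram p).det ≠ 0) (i : ZMod (d + 3)) :
    ∃ (nu : ℝ) (w : Fin d → ℝ), ∀ j : ZMod (d + 3),
      (if j = i then SS (d := d) g else 0) - wdg (Gf (d := d) g j) (g i) = nu + ∑ c : Fin d, p j c * w c := by
  have hsum : ∑ j, g j = 0 := hg.sum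
  obtain ⟨W, hW⟩ := range_eq hg hD (fun j : Fin (d + 3) =>
    (if (show ZMod (d + 3) from j) = i then SS (d := d) g else 0) - wdg (Gf (d := d) g j) (g i)) (by
      show ∑ j : ZMod (d + 3), (((if j = i then SS (d := d) g else 0) - wdg (Gf (d := d) g j) (g i) : ℝ) : ℂ) * g j = 0
      have e : ∀ j : ZMod (d + 3), (((if j = i then SS (d := d) g else 0) - wdg (Gf (d := d) g j) (g i) : ℝ) : ℂ) * g j
          = (if j = i then (SS (d := d) g : ℂ) * g j else 0) - ((wdg (Gf (d := d) g j) (g i) : ℝ) : ℂ) * g j := by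
        intro j
        by_cases hj : j = i
        · rw [if_pos hj, if_pos hj]; push_cast; ring
        · rw [if_neg hj, if_neg hj]; push_cast; ring
      simp_rw [e]
      rw [Finset.sum_sub_distrib, Finset.sum_ite_eq' Finset.univ i, if_pos (Finset.mem_univ _)]
      have h1 := J_re g hsum (g i)
      have h2 := J_im g hsum (g i)
      apply Complex.ext
      · rw [Complex.sub_re, Complex.re_sum]
        simp only [Complex.re_ofReal_mul, Complex.zero_re]
        rw [h1]; ring
      · rw [Complex.sub_im, Complex.im_sum]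
        simp only [Complex.im_ofReal_mul, Complex.zero_im]
        rw [h2]; ring)
  refine ⟨W 0, fun c => W c.succ, fun j => ?_⟩
  have := hW j
  rw [Fin.sum_univ_succ] at this
  simp only [aug_zero, aug_succ, one_mul] at this
  exact this

/-- moving the vertex `i` -/
theorem pert (hd : Even d) {p : Fin (d + 3) → EE d} {g : ZMod (d + 3) → ℂ} (hg : Gale p g)
    (hD : (gram p).det ≠ 0) (hpos : Pos (d := d) g) (i : ZMod (d + 3)) {nu : ℝ} {w : Fin d → ℝ}
    (hstar : ∀ j : ZMod (d + 3), (if j = i then SS (d := d) g else 0) - wdg (Gf (d := d) g j) (g i)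
      = nu + ∑ c : Fin d, p j c * w c) :
    ∀ᶠ x in 𝓝 (p i), ∃ k : Fin (d + 3) → ℂ, Gale (Function.update p i x) k ∧ Pos k ∧
      (gram (Function.update p i x)).det ≠ 0 ∧
      Real.sqrt (gram (Function.update p i x)).det * SS (d := d) k
        = Real.sqrt (gram p).det * (nu + ∑ c : Fin d, x c * w c + wdg (Gf (d := d) g i) (g i)) := by
  have hsum : ∑ j, g j = 0 := hg.sum
  -- right inverse
  set R : Matrix (Fin (d + 3)) (Fin (d + 1)) ℝ := aug p * (gram p)⁻¹ with hR
  have hRi : (aug p)ᵀ * R = 1 := by
    rw [hR, ← Matrix.mul_assoc]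
    exact Matrix.mul_nonsing_inv _ (isUnit_iff_ne_zero.2 hD)
  have hRs : ∀ b c : Fin (d + 1), ∑ j, aug p j b * R j c = if b = c then 1 else 0 := by
    intro b c
    have := congrFun (congrFun hRi b) c
    rw [Matrix.mul_apply, Matrix.one_apply] at this
    exact this
  set α : EE d → ZMod (d + 3) → ℝ := fun x j =>
    (if j = i then 1 else 0) + ∑ c : Fin d, R j c.succ * (x c - p i c) with hα
  have hαp : ∀ j, α (p i) j = if j = i then 1 else 0 := by
    intro j; simp [hα]
  have hαrel : ∀ x, ∀ b : Fin (d + 1), ∑ j : ZMod (d + 3), α x j * aug p j b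
      = (Fin.cons 1 (x).ofLp : Fin (d + 1) → ℝ) b := by
    intro x b
    have e1 : ∀ j : ZMod (d + 3), α x j * aug p j b = (if j = i then aug p j b else 0)
        + ∑ c : Fin d, (x c - p i c) * (aug p j b * R j c.succ) := by
      intro j
      simp only [hα]
      rw [add_mul, ite_mul, one_mul, zero_mul, Finset.sum_mul]
      congr 1
      exact Finset.sum_congr rfl fun c _ => by ring
    simp_rw [e1]
    rw [Finset.sum_add_distrib, Finset.sum_ite_eq' Finset.univ i, if_pos (Finset.mem_univ _),
      Finset.sum_comm]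
    have e2 : ∀ c : Fin d, ∑ j : ZMod (d + 3), (x c - p i c) * (aug p j b * R j c.succ)
        = if b = c.succ then x c - p i c else 0 := by
      intro c
      rw [← Finset.mul_sum]
      have := hRs b c.succ
      have e3 : ∑ j : ZMod (d + 3), aug p j b * R j c.succ = if b = c.succ then 1 else 0 := this
      rw [e3, mul_ite, mul_one, mul_zero]
    simp_rw [e2]
    refine Fin.cases ?_ (fun b => ?_) b
    · have : ∀ c : Fin d, (0 : Fin (d + 1)) ≠ c.succ := fun c => (Fin.succ_ne_zero c).symm
      simp [this]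
    · simp only [aug_succ, Fin.cons_succ, Fin.succ_inj]
      rw [Finset.sum_ite_eq, if_pos (Finset.mem_univ _)]
      ring
  have hαc : ∀ j, Continuous fun x => α x j := by
    intro j
    simp only [hα]
    fun_prop
  set β : EE d → ZMod (d + 3) → ℝ := fun x j => (α x j - if j = i then 1 else 0) / α x i with hβ
  set G : EE d → ZMod (d + 3) → ℂ := fun x j => g j - ((β x j : ℝ) : ℂ) * g i with hG
  have hβp : ∀ j, β (p i) j = 0 := by
    intro j; simp only [hβ]; rw [hαp, sub_self, zero_div]
  have hβc : ∀ j, ContinuousAt (fun x => β x j) (p i) := by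
    intro j
    simp only [hβ]
    refine ContinuousAt.div ?_ (hαc i).continuousAt ?_
    · exact ((hαc j).sub continuous_const).continuousAt
    · rw [hαp, if_pos rfl]; exact one_ne_zero
  have hev1 : ∀ᶠ x in 𝓝 (p i), 0 < α x i := by
    have := (hαc i).tendsto (p i)
    rw [hαp, if_pos rfl] at this
    exact this.eventually (lt_mem_nhds one_pos)
  have hev2 : ∀ᶠ x in 𝓝 (p i), Pos (d := d) (G x) := by
    unfold Pos
    rw [Filter.eventually_all]
    intro a
    rw [Filter.eventually_all]
    intro b
    by_cases hab : a < b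
    · have hc : ContinuousAt (fun x => wdg (ee (d := d) (G x) a) (ee (d := d) (G x) b)) (p i) := by
        have e : ∀ x, wdg (ee (d := d) (G x) a) (ee (d := d) (G x) b)
            = (-1 : ℝ) ^ a.val * ((-1 : ℝ) ^ b.val * (wdg (g a) (g b) - β x b * wdg (g a) (g i)
              - β x a * wdg (g i) (g b))) := by
          intro x
          unfold ee
          rw [wdg_real_mul_left, wdg_real_mul_right]
          simp only [hG]
          rw [wdg_sub_left, wdg_sub_right, wdg_sub_right, wdg_real_mul_left, wdg_real_mul_right,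
            wdg_real_mul_left, wdg_real_mul_right, wdg_self]
          ring
        simp_rw [e]
        have ca := hβc a
        have cb := hβc b
        fun_prop
      have hval : G (p i) = g := by
        funext j
        simp only [hG]
        rw [hβp]; simp
      have hlim := hc.tendsto
      rw [hval] at hlim
      filter_upwards [hlim.eventually (lt_mem_nhds (hpos a b hab))] with x hx _
      exact hx
    · exact Filter.Eventually.of_forall fun x h => absurd h hab
  filter_upwards [hev1, hev2] with x hαi hposx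
  -- Gale relation of the moved configuration
  set q := Function.update p i x with hq
  have hqi : q i = x := by rw [hq]; exact Function.update_self i x p
  have hqj : ∀ j : ZMod (d + 3), j ≠ i → q j = p j := by
    intro j hj; rw [hq]; exact Function.update_of_ne hj x p
  have hGi : G x i = ((1 / α x i : ℝ) : ℂ) * g i := by
    simp only [hG, hβ, if_true]
    have : (1 : ℝ) - (α x i - 1) / α x i = 1 / α x i := by
      field_simp
      ring
    rw [← this]
    push_cast
    ring
  have hrel : ∀ c : Fin (d + 1), ∑ j : ZMod (d + 3), (aug q j c : ℂ) * G x j = 0 := by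
    intro c
    have e1 : ∀ j : ZMod (d + 3), (aug q j c : ℂ) * G x j = (aug p j c : ℂ) * g j
        - ((β x j * aug p j c : ℝ) : ℂ) * g i
        + (if j = i then ((aug q i c - aug p i c : ℝ) : ℂ) * G x i else 0) := by
      intro j
      by_cases hj : j = i
      · rw [if_pos hj, hj]
        simp only [hG]
        push_cast
        ring
      · rw [if_neg hj]
        have : aug q j c = aug p j c := by
          unfold aug
          rw [hqj j hj]
        rw [this]
        simp only [hG]
        push_cast
        ring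
    simp_rw [e1]
    rw [Finset.sum_add_distrib, Finset.sum_sub_distrib, Finset.sum_ite_eq' Finset.univ i,
      if_pos (Finset.mem_univ _), ← Finset.sum_mul, ← Complex.ofReal_sum]
    have e2 : ∑ j : ZMod (d + 3), (aug p j c : ℂ) * g j = 0 := hg.sum_g c
    have e3 : ∑ j : ZMod (d + 3), β x j * aug p j c = (aug q i c - aug p i c) / α x i := by
      have h1 := hαrel x c
      have h2 : (Fin.cons 1 (x).ofLp : Fin (d + 1) → ℝ) c = aug q i c := by
        unfold aug
        rw [hqi]
      rw [h2] at h1
      have h3 : ∀ j : ZMod (d + 3), β x j * aug p j c = (α x j * aug p j c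
          - (if j = i then aug p j c else 0)) / α x i := by
        intro j
        simp only [hβ]
        by_cases hj : j = i
        · rw [if_pos hj, if_pos hj]; ring
        · rw [if_neg hj, if_neg hj]; ring
      simp_rw [h3]
      rw [← Finset.sum_div, Finset.sum_sub_distrib, h1, Finset.sum_ite_eq' Finset.univ i,
        if_pos (Finset.mem_univ _)]
    rw [e2, e3, hGi]
    push_cast
    ring
  -- another index
  obtain ⟨b, hb⟩ : ∃ b : ZMod (d + 3), b ≠ i := by
    refine ⟨i + 1, fun h' => ?_⟩
    have h1 : (1 : ZMod (d + 3)) = 0 := by linear_combination h'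
    have h3 : ((1 : ℕ) : ZMod (d + 3)) = 0 := by exact_mod_cast h1
    rw [ZMod.natCast_eq_zero_iff] at h3
    have := Nat.le_of_dvd (by norm_num) h3
    omega
  have hwib : wdg (g i) (g b) ≠ 0 := wdg_ne (g := g) hpos (fun h' => hb h'.symm)
  have hwG : wdg (G x i) (G x b) = wdg (g i) (g b) / α x i := by
    rw [hGi, wdg_real_mul_left]
    simp only [hG]
    rw [wdg_sub_right, wdg_real_mul_right, wdg_self]
    ring
  have hwG0 : wdg (G x i) (G x b) ≠ 0 := by
    rw [hwG]; exact div_ne_zero hwib hαi.ne'
  obtain ⟨k, δ, hδ, hk, hkw⟩ := orthonormalise (q := q) (h := G x) (u := i) (v := b) hrel hwG0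
  obtain ⟨ε, hε0, hε1⟩ := exists_enum (d := d) i b (fun h' => hb h'.symm)
  have hminor : (aug fun j : Fin (d + 1) => q (ε (Sum.inl j))) = aug fun j : Fin (d + 1) => p (ε (Sum.inl j)) := by
    congr 1
    funext j
    apply hqj
    intro h'
    have : ε (Sum.inl j) = ε (Sum.inr 0) := by rw [hε0]; exact h'
    have := ε.injective this
    simp at this
  obtain ⟨hD0⟩ : Nonempty (0 < (gram p).det) :=
    ⟨lt_of_le_of_ne (gram_det_nonneg (g := g) hg ε) (Ne.symm hD)⟩
  have hsD := Real.sqrt_pos.2 hD0
  have hdetp : |(aug fun j : Fin (d + 1) => p (ε (Sum.inl j))).det|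
      = Real.sqrt (gram p).det * |wdg (g i) (g b)| := by
    have := abs_det_eq (g := g) hg hD ε
    rw [hε0, hε1] at this
    exact this
  have hDq : (gram q).det ≠ 0 := by
    apply gram_det_ne_zero
    intro v hv
    have hne : (aug fun j : Fin (d + 1) => q (ε (Sum.inl j))).det ≠ 0 := by
      rw [hminor]
      intro h0
      rw [h0, abs_zero] at hdetp
      have : 0 < Real.sqrt (gram p).det * |wdg (g i) (g b)| := mul_pos hsD (abs_pos.2 hwib)
      linarith
    refine Matrix.eq_zero_of_mulVec_eq_zero hne ?_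
    funext j
    exact hv (ε (Sum.inl j))
  have hdetq := abs_det_eq hk hDq ε
  rw [hminor, hdetp, hε0, hε1, hkw, abs_mul, abs_of_pos hδ, hwG, abs_div, abs_of_pos hαi] at hdetq
  have hfac : Real.sqrt (gram q).det * δ = Real.sqrt (gram p).det * α x i := by
    have h1 : |wdg (g i) (g b)| ≠ 0 := abs_ne_zero.2 hwib
    have h2 : Real.sqrt (gram q).det * (δ * (|wdg (g i) (g b)| / α x i))
        = (Real.sqrt (gram q).det * δ / α x i) * |wdg (g i) (g b)| := by ring
    rw [h2] at hdetq
    have h3 := mul_right_cancel₀ h1 hdetq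
    rw [h3]
    field_simp
  have hSSk : SS (d := d) k = δ * SS (d := d) (G x) := SS_scale (G x) k δ hkw
  refine ⟨k, hk, pos_scale hδ hkw hposx, hDq, ?_⟩
  rw [hSSk, ← mul_assoc, hfac, mul_assoc]
  congr 1
  have hG0 : ∑ j : ZMod (d + 3), G x j = 0 := by
    have := hrel 0
    simpa using this
  have h4 : SS (d := d) (G x) = SS (d := d) g - ∑ j, β x j * wdg (Gf (d := d) g j) (g i) :=
    SS_sub g hsum (β x) (g i) hG0
  rw [h4]
  have h5 : α x i * (SS (d := d) g - ∑ j, β x j * wdg (Gf (d := d) g j) (g i))
      = ∑ j, α x j * ((if j = i then SS (d := d) g else 0) - wdg (Gf (d := d) g j) (g i))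
        + wdg (Gf (d := d) g i) (g i) := by
    have e1 : ∀ j, β x j * wdg (Gf (d := d) g j) (g i) = (α x j * wdg (Gf (d := d) g j) (g i)
        - (if j = i then wdg (Gf (d := d) g j) (g i) else 0)) / α x i := by
      intro j
      simp only [hβ]
      by_cases hj : j = i
      · rw [if_pos hj, if_pos hj]; ring
      · rw [if_neg hj, if_neg hj]; ring
    have e2 : ∀ j, α x j * ((if j = i then SS (d := d) g else 0) - wdg (Gf (d := d) g j) (g i))
        = (if j = i then α x j * SS (d := d) g else 0) - α x j * wdg (Gf (d := d) g j) (g i) := by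
      intro j
      by_cases hj : j = i
      · rw [if_pos hj, if_pos hj]; ring
      · rw [if_neg hj, if_neg hj]; ring
    simp_rw [e1, e2]
    rw [← Finset.sum_div, Finset.sum_sub_distrib, Finset.sum_sub_distrib,
      Finset.sum_ite_eq' Finset.univ i, Finset.sum_ite_eq' Finset.univ i,
      if_pos (Finset.mem_univ _), if_pos (Finset.mem_univ _)]
    field_simp
    ring
  rw [h5]
  congr 1
  simp_rw [hstar]
  have h6 : ∀ j : ZMod (d + 3), α x j * (nu + ∑ c : Fin d, p j c * w c)
      = nu * (α x j * aug p j 0) + ∑ c : Fin d, w c * (α x j * aug p j c.succ) := by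
    intro j
    rw [mul_add, Finset.mul_sum]
    simp only [aug_zero, aug_succ, mul_one]
    congr 1
    · ring
    · exact Finset.sum_congr rfl fun c _ => by ring
  simp_rw [h6]
  rw [Finset.sum_add_distrib, ← Finset.mul_sum, hαrel x 0, Finset.sum_comm]
  simp_rw [← Finset.mul_sum]
  simp only [Fin.cons_zero, mul_one]
  congr 1
  refine Finset.sum_congr rfl fun c _ => ?_
  rw [hαrel x c.succ, Fin.cons_succ]
  ring

end Pool.Agent.Zk86.CycZ
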